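import Mathlib

/-!
Filtrations with factors of order dividing `p` and their structure constants.
-/

namespace Pool.Agent.MP_565547_al.H26

open scoped commutatorElement

/-- A central filtration whose factors embed in `ZMod p`. -/
structure Fil (p : ℕ) (G : Type) [Group G] where
  P : ℕ → Subgroup G
  κ : ℕ → G → ZMod p
  normal : ∀ i, (P i).Normal
  anti : ∀ i j, i ≤ j → P j ≤ P i
  comm : ∀ x y g h, g ∈ P x → h ∈ P y → ⁅g, h⁆ ∈ P (x + y)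
  comm_top : ∀ x (g h : G), h ∈ P x → ⁅g, h⁆ ∈ P (x + 1)
  κ_mul : ∀ w g h, g ∈ P w → h ∈ P w → κ w (g * h) = κ w g + κ w h
  κ_zero : ∀ w g, g ∈ P w → (κ w g = 0 ↔ g ∈ P (w + 1))

variable {p : ℕ} {G : Type} [Group G]

namespace Fil

variable (F : Fil p G)

theorem conj_mem {w : ℕ} {h : G} (hh : h ∈ F.P w) (g : G) : g * h * g⁻¹ ∈ F.P w :=
  (F.normal w).conj_mem h hh g

theorem down {w v : ℕ} {h : G} (hh : h ∈ F.P w) (hv : v ≤ w) : h ∈ F.P v := F.anti v w hv hh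

theorem κ_hi {w : ℕ} {h : G} (hh : h ∈ F.P (w + 1)) : F.κ w h = 0 :=
  (F.κ_zero w h (F.down hh (Nat.le_succ w))).2 hh

theorem κ_inv {w : ℕ} {g : G} (hg : g ∈ F.P w) : F.κ w g⁻¹ = - F.κ w g := by
  have h := F.κ_mul w g g⁻¹ hg (inv_mem hg)
  rw [mul_inv_cancel, F.κ_hi (one_mem _)] at h
  linear_combination -h

theorem add_pow {w : ℕ} {φ : G → ZMod p}
    (h1 : ∀ g h, g ∈ F.P w → h ∈ F.P w → φ (g * h) = φ g + φ h) {g : G} (hg : g ∈ F.P w)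
    (m : ℕ) : φ (g ^ m) = m * φ g := by
  induction m with
  | zero =>
    have := h1 1 1 (one_mem _) (one_mem _)
    rw [mul_one] at this
    simp only [pow_zero, Nat.cast_zero, zero_mul]
    linear_combination -this
  | succ m ih =>
    rw [pow_succ, h1 _ _ (pow_mem hg m) hg, ih]
    push_cast
    ring

theorem κ_pow {w : ℕ} {g : G} (hg : g ∈ F.P w) (m : ℕ) : F.κ w (g ^ m) = m * F.κ w g :=
  F.add_pow (F.κ_mul w) hg m

theorem κ_conj {w : ℕ} {h : G} (hh : h ∈ F.P w) (g : G) : F.κ w (g * h * g⁻¹) = F.κ w h := by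
  have e : g * h * g⁻¹ = ⁅g, h⁆ * h := by simp [commutatorElement_def]
  have h1 := F.comm_top w g h hh
  rw [e, F.κ_mul w _ _ (F.down h1 (Nat.le_succ w)) hh, F.κ_hi h1, zero_add]

theorem pow_p {w : ℕ} {g : G} (hg : g ∈ F.P w) : g ^ p ∈ F.P (w + 1) := by
  rw [← F.κ_zero w _ (pow_mem hg p), F.κ_pow hg]
  simp

theorem decomp [hp : Fact p.Prime] {w : ℕ} {u g : G} (hu : u ∈ F.P w) (hu' : u ∉ F.P (w + 1))
    (hg : g ∈ F.P w) : ∃ m : ℕ, (m : ZMod p) * F.κ w u = F.κ w g ∧ g * (u ^ m)⁻¹ ∈ F.P (w + 1) := by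
  have h0 : F.κ w u ≠ 0 := fun h => hu' ((F.κ_zero w u hu).1 h)
  have h1 : (((F.κ w g / F.κ w u).val : ℕ) : ZMod p) * F.κ w u = F.κ w g := by
    rw [ZMod.natCast_zmod_val]
    field_simp
  refine ⟨_, h1, ?_⟩
  rw [← F.κ_zero w _ (mul_mem hg (inv_mem (pow_mem hu _))),
    F.κ_mul w _ _ hg (inv_mem (pow_mem hu _)), F.κ_inv (pow_mem hu _), F.κ_pow hu, h1,
    add_neg_cancel]

theorem add_map [hp : Fact p.Prime] {w : ℕ} {φ : G → ZMod p}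
    (h1 : ∀ g h, g ∈ F.P w → h ∈ F.P w → φ (g * h) = φ g + φ h)
    (h2 : ∀ g, g ∈ F.P (w + 1) → φ g = 0) {u g : G} (hu : u ∈ F.P w) (hu' : F.κ w u = 1)
    (hg : g ∈ F.P w) : φ g = F.κ w g * φ u := by
  have h0 : u ∉ F.P (w + 1) := fun h => by
    rw [F.κ_hi h] at hu'
    exact zero_ne_one hu'
  obtain ⟨m, hm, hm'⟩ := F.decomp hu h0 hg
  have e : g = (g * (u ^ m)⁻¹) * u ^ m := by group
  rw [hu', mul_one] at hm
  rw [← hm]
  conv_lhs => rw [e]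
  rw [h1 _ _ (F.down hm' (Nat.le_succ w)) (pow_mem hu m), h2 _ hm', F.add_pow h1 hu, zero_add]

theorem κ_left {w : ℕ} {g g' h : G} (h1 : ⁅g, h⁆ ∈ F.P w) (h2 : ⁅g', h⁆ ∈ F.P w) :
    F.κ w ⁅g * g', h⁆ = F.κ w ⁅g, h⁆ + F.κ w ⁅g', h⁆ := by
  rw [commutatorElement_mul_left_eq_conj_mul, F.κ_mul w _ _ (F.conj_mem h2 g) h1, F.κ_conj h2,
    add_comm]

theorem κ_right {w : ℕ} {g h h' : G} (h1 : ⁅g, h⁆ ∈ F.P w) (h2 : ⁅g, h'⁆ ∈ F.P w) :
    F.κ w ⁅g, h * h'⁆ = F.κ w ⁅g, h⁆ + F.κ w ⁅g, h'⁆ := by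
  rw [commutatorElement_mul_right_eq_mul_conj, mul_assoc, mul_assoc, ← mul_assoc h,
    F.κ_mul w _ _ h1 (F.conj_mem h2 h), F.κ_conj h2]

/-- Commutators of terms beyond `a` are shifted by `l`, modulo `P M`. -/
def Sh (a l M : ℕ) : Prop :=
  ∀ x y w g h, a ≤ x → a ≤ y → w ≤ x + y + l → w ≤ M → g ∈ F.P x → h ∈ F.P y → ⁅g, h⁆ ∈ F.P w

theorem sh_zero (a M : ℕ) : F.Sh a 0 M :=
  fun x y _ g h _ _ hw _ hg hh => F.down (F.comm x y g h hg hh) hw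

end Fil

/-- A filtration with an element acting uniserially up to level `M`. -/
structure Ctx (p : ℕ) (G : Type) [Group G] (M : ℕ) extends Fil p G where
  s : G
  t : ℕ → G
  s_pow : s ^ p ∈ P 1
  t_mem : ∀ w, 1 ≤ w → t w ∈ P w
  t_succ : ∀ w, 1 ≤ w → t (w + 1) = ⁅s, t w⁆
  κ_t : ∀ w, 1 ≤ w → w < M → κ w (t w) = 1

namespace Ctx

variable {M : ℕ} (c : Ctx p G M)

/-- Lowering the level. -/
def mono {N : ℕ} (h : N ≤ M) : Ctx p G N :=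
  { c with κ_t := fun w h1 h2 => c.κ_t w h1 (lt_of_lt_of_le h2 h) }

/-- The structure constants. -/
def γ (l x y : ℕ) : ZMod p := c.κ (x + y + l) ⁅c.t x, c.t y⁆

variable [hp : Fact p.Prime] {a l : ℕ}

theorem κ_s {w : ℕ} (h1 : 1 ≤ w) (h2 : w + 1 < M) {g : G} (hg : g ∈ c.P w) :
    c.κ (w + 1) ⁅c.s, g⁆ = c.κ w g := by
  rw [c.add_map (φ := fun g => c.κ (w + 1) ⁅c.s, g⁆)
    (fun g h hg hh => c.κ_right (c.comm_top w _ _ hg) (c.comm_top w _ _ hh))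
    (fun g hg => c.κ_hi (c.comm_top (w + 1) _ _ hg)) (c.t_mem w h1) (c.κ_t w h1 (by omega)) hg,
    ← c.t_succ w h1, c.κ_t (w + 1) (by omega) h2, mul_one]

theorem bilin (H : c.Sh a l M) (ha : 1 ≤ a) {x y : ℕ} (hx : a ≤ x) (hy : a ≤ y)
    (hM : x + y + l < M) {g h : G} (hg : g ∈ c.P x) (hh : h ∈ c.P y) :
    c.κ (x + y + l) ⁅g, h⁆ = c.κ x g * c.κ y h * c.γ l x y := by
  have hx1 : 1 ≤ x := by omega
  have hy1 : 1 ≤ y := by omega
  rw [c.add_map (φ := fun g => c.κ (x + y + l) ⁅g, h⁆)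
    (fun g g' hg hg' => c.κ_left (H x y _ _ _ hx hy le_rfl hM.le hg hh)
      (H x y _ _ _ hx hy le_rfl hM.le hg' hh))
    (fun g hg => c.κ_hi (H (x + 1) y _ _ _ (by omega) hy (by omega) hM hg hh))
    (c.t_mem x hx1) (c.κ_t x hx1 (by omega)) hg,
    c.add_map (φ := fun h => c.κ (x + y + l) ⁅c.t x, h⁆)
    (fun h h' hh hh' => c.κ_right (H x y _ _ _ hx hy le_rfl hM.le (c.t_mem x hx1) hh)
      (H x y _ _ _ hx hy le_rfl hM.le (c.t_mem x hx1) hh'))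
    (fun h hh => c.κ_hi (H x (y + 1) _ _ _ hx (by omega) (by omega) hM (c.t_mem x hx1) hh))
    (c.t_mem y hy1) (c.κ_t y hy1 (by omega)) hh, γ, mul_assoc]

theorem γ_self (x : ℕ) : c.γ l x x = 0 := by
  rw [γ, commutatorElement_self]
  exact c.κ_hi (one_mem _)

theorem γ_anti (H : c.Sh a l M) (ha : 1 ≤ a) (x y : ℕ) (hx : a ≤ x) (hy : a ≤ y)
    (hM : x + y + l < M) : c.γ l y x = - c.γ l x y := by
  rw [γ, γ, ← commutatorElement_inv, add_comm y x,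
    c.κ_inv (H x y _ _ _ hx hy le_rfl hM.le (c.t_mem x (by omega)) (c.t_mem y (by omega)))]

theorem γ_rec (H : c.Sh a l M) (ha : 1 ≤ a) (x y : ℕ) (hx : a ≤ x) (hy : a ≤ y)
    (hM : x + y + 1 + l < M) : c.γ l x y = c.γ l (x + 1) y + c.γ l x (y + 1) := by
  have hx1 : 1 ≤ x := by omega
  have hy1 : 1 ≤ y := by omega
  have tx := c.t_mem x hx1
  have ty := c.t_mem y hy1
  have tx' := c.t_mem (x + 1) (by omega)
  have ty' := c.t_mem (y + 1) (by omega)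
  have hc : ⁅c.t x, c.t y⁆ ∈ c.P (x + y + l) := H x y _ _ _ hx hy le_rfl (by omega) tx ty
  have e1 := c.κ_s (w := x + y + l) (by omega) (by omega) hc
  have e2 : ⁅c.s, ⁅c.t x, c.t y⁆⁆ =
      (c.t (x + 1) * ⁅c.t x, c.t (y + 1)⁆ * (c.t (x + 1))⁻¹) *
      (⁅c.t (x + 1) * c.t (y + 1), ⁅c.t x, c.t y⁆⁆ *
      (⁅c.t x, c.t y⁆ * ⁅c.t (x + 1), c.t (y + 1) * c.t y⁆ * ⁅c.t x, c.t y⁆⁻¹)) := by
    rw [c.t_succ x hx1, c.t_succ y hy1]
    simp only [commutatorElement_def]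
    group
  have m1 : ⁅c.t x, c.t (y + 1)⁆ ∈ c.P (x + y + l + 1) :=
    H x (y + 1) _ _ _ hx (by omega) (by omega) (by omega) tx ty'
  have m0 : c.t (y + 1) * c.t y ∈ c.P y := mul_mem (c.down ty' (by omega)) ty
  have m2 : ⁅c.t (x + 1), c.t (y + 1) * c.t y⁆ ∈ c.P (x + y + l + 1) :=
    H (x + 1) y _ _ _ (by omega) hy (by omega) (by omega) tx' m0
  have m3 : ⁅c.t (x + 1) * c.t (y + 1), ⁅c.t x, c.t y⁆⁆ ∈ c.P (x + y + l + 1 + 1) :=
    c.down (c.comm 2 _ _ _ (mul_mem (c.down tx' (by omega)) (c.down ty' (by omega))) hc) (by omega)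
  rw [e2, c.κ_mul _ _ _ (c.conj_mem m1 _) (mul_mem (c.down m3 (by omega)) (c.conj_mem m2 _)),
    c.κ_mul _ _ _ (c.down m3 (by omega)) (c.conj_mem m2 _), c.κ_hi m3, c.κ_conj m1,
    c.κ_conj m2] at e1
  have e3 := c.bilin H ha (x := x + 1) (y := y) (by omega) hy (by omega) tx' m0
  rw [c.κ_mul _ _ _ (c.down ty' (by omega)) ty, c.κ_hi ty', c.κ_t _ (by omega) (by omega),
    c.κ_t _ hy1 (by omega), show x + 1 + y + l = x + y + l + 1 by omega] at e3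
  rw [e3] at e1
  have e4 : c.γ l x (y + 1) = c.κ (x + y + l + 1) ⁅c.t x, c.t (y + 1)⁆ := by
    rw [γ, show x + (y + 1) + l = x + y + l + 1 by omega]
  rw [e4, γ, ← e1]
  ring

theorem γ_jac_aux (H : c.Sh a l M) (ha : 1 ≤ a) (x y z : ℕ) (hx : a ≤ x) (hy : a ≤ y) (hz : a ≤ z)
    (hM : x + y + z + 2 * l < M) {w : ℕ} (hw : w = x + y + z + 2 * l) (g : G) :
    ⁅⁅c.t x, c.t y⁆, g * c.t z * g⁻¹⁆ ∈ c.P w ∧
    c.κ w ⁅⁅c.t x, c.t y⁆, g * c.t z * g⁻¹⁆ = c.γ l x y * c.γ l (x + y + l) z := by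
  have hc : ⁅c.t x, c.t y⁆ ∈ c.P (x + y + l) :=
    H x y _ _ _ hx hy le_rfl (by omega) (c.t_mem x (by omega)) (c.t_mem y (by omega))
  have tz := c.t_mem z (by omega)
  refine ⟨H (x + y + l) z _ _ _ (by omega) hz (by omega) (by omega) hc (c.conj_mem tz g), ?_⟩
  have e := c.bilin H ha (x := x + y + l) (y := z) (by omega) hz (by omega) hc (c.conj_mem tz g)
  rw [c.κ_conj tz, c.κ_t z (by omega) (by omega), mul_one,
    show x + y + l + z + l = w by omega] at e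
  exact e

theorem γ_jac (H : c.Sh a l M) (ha : 1 ≤ a) (x y z : ℕ) (hx : a ≤ x) (hy : a ≤ y) (hz : a ≤ z)
    (hM : x + y + z + 2 * l < M) :
    c.γ l x y * c.γ l (x + y + l) z + c.γ l y z * c.γ l (y + z + l) x +
      c.γ l z x * c.γ l (z + x + l) y = 0 := by
  obtain ⟨m1, e1⟩ := c.γ_jac_aux H ha x y z hx hy hz hM rfl (c.t y)
  obtain ⟨m2, e2⟩ := c.γ_jac_aux H ha y z x hy hz hx (by omega)
    (w := x + y + z + 2 * l) (by omega) (c.t z)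
  obtain ⟨m3, e3⟩ := c.γ_jac_aux H ha z x y hz hx hy (by omega)
    (w := x + y + z + 2 * l) (by omega) (c.t x)
  rw [← e1, ← e2, ← e3, ← c.κ_mul _ _ _ m1 m2, ← c.κ_mul _ _ _ (mul_mem m1 m2) m3,
    commutatorElement_commutatorElement_conj_mul]
  exact c.κ_hi (one_mem _)

end Ctx

end Pool.Agent.MP_565547_al.H26
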