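import Mathlib
import Pool.Agent.MP_565547_al.H26.Ctx

/-!
The power structure and the periodicity of the structure constants.
-/

namespace Pool.Agent.MP_565547_al.H26

open scoped commutatorElement
open Finset

theorem norm_formula {A : Type} [CommGroup A] (σ : A →* A) (e : ℕ → A)
    (he : ∀ j, σ (e j) = e (j + 1) * e j) (N : ℕ → A) (h0 : N 0 = 1)
    (hN : ∀ m, N (m + 1) = σ (N m) * e 0) (m : ℕ) :
    N m = ∏ j ∈ range m, e j ^ (m.choose (j + 1)) := by
  induction m with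
  | zero => simpa using h0
  | succ m ih =>
    rw [hN, ih, map_prod]
    simp only [map_pow, he, mul_pow, Nat.choose_succ_succ', pow_add, prod_mul_distrib]
    rw [prod_range_succ' (fun j => e j ^ m.choose j), prod_range_succ (fun j => e j ^ m.choose (j + 1))]
    simp only [Nat.choose_zero_right, pow_one, Nat.choose_succ_self, pow_zero, mul_one]
    rw [mul_right_comm]

theorem exists_section {G : Type} [Group G] (K B : Subgroup G) [K.Normal] [hB : B.Normal]
    (hKB : ∀ g h, g ∈ K → h ∈ K → ⁅g, h⁆ ∈ B) (s : G) :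
    ∃ (A : Type) (_ : CommGroup A) (π : G → A) (σ : A →* A),
      (∀ g h, g ∈ K → h ∈ K → π (g * h) = π g * π h) ∧ (∀ g, g ∈ K → (π g = 1 ↔ g ∈ B)) ∧
      ∀ g, g ∈ K → σ (π g) = π (s * g * s⁻¹) := by
  classical
  let B' : Subgroup K := B.subgroupOf K
  let I : CommGroup (K ⧸ B') :=
    { (inferInstance : Group (K ⧸ B')) with
      mul_comm := by
        intro a b
        induction a using QuotientGroup.induction_on with
        | H a =>
        induction b using QuotientGroup.induction_on with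
        | H b =>
        rw [← QuotientGroup.mk_mul, ← QuotientGroup.mk_mul, QuotientGroup.eq]
        have := hKB _ _ (inv_mem b.2) (inv_mem a.2)
        simpa [B', Subgroup.mem_subgroupOf, commutatorElement_def, mul_assoc] using this }
  let τ : K →* K := (MulAut.conjNormal s : MulAut K).toMonoidHom
  have hτ : B' ≤ B'.comap τ := by
    intro g hg
    simpa [B', τ, Subgroup.mem_subgroupOf] using hB.conj_mem _ hg s
  refine ⟨K ⧸ B', I, fun g => if h : g ∈ K then QuotientGroup.mk ⟨g, h⟩ else 1,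
    QuotientGroup.map B' B' τ hτ, ?_, ?_, ?_⟩
  · intro g h hg hh
    simp only [hg, hh, mul_mem hg hh, dif_pos]
    rfl
  · intro g hg
    simp only [hg, dif_pos]
    rw [QuotientGroup.eq_one_iff]
    rfl
  · intro g hg
    have h2 : s * g * s⁻¹ ∈ K := Subgroup.Normal.conj_mem inferInstance g hg s
    simp only [hg, h2, dif_pos]
    rfl

namespace Ctx

variable {p : ℕ} {G : Type} [Group G] {M : ℕ} (c : Ctx p G M) [hp : Fact p.Prime]

theorem s_pow_mem (w : ℕ) (hw : w + 1 ≤ M) : c.s ^ p ∈ c.P w := by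
  induction w with
  | zero => exact c.down c.s_pow (by omega)
  | succ w ih =>
    rcases Nat.eq_zero_or_pos w with h | h
    · rw [h]
      exact c.s_pow
    have h1 := ih (by omega)
    have h2 := c.κ_s h (by omega) h1
    rw [((Commute.refl c.s).pow_right p).commutator_eq, c.κ_hi (one_mem _)] at h2
    exact (c.κ_zero w _ h1).1 h2.symm

theorem pow_step {q x v : ℕ} (hq : p = q + 1) (hx : p ≤ x) (hxM : x < M) (hv : v ≤ M)
    (hv' : v ≤ x + p) (IH : ∀ g, g ∈ c.P (x + 1) → g ^ p ∈ c.P v) {g : G} (hg : g ∈ c.P x) :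
    ∃ m : ℕ, (m : ZMod p) = c.κ x g ∧ g ^ p * c.t (x + q) ^ m ∈ c.P v := by
  have hp2 := hp.out.two_le
  have := c.normal x
  have := c.normal v
  obtain ⟨A, _, π, σ, h1, h2, h3⟩ := exists_section (c.P x) (c.P v)
    (fun g h hg hh => c.down (c.comm x x g h hg hh) (by omega)) c.s
  have hπ1 : π 1 = 1 := (h2 1 (one_mem _)).2 (one_mem _)
  have hpow : ∀ g, g ∈ c.P x → ∀ m : ℕ, π (g ^ m) = π g ^ m := by
    intro g hg m
    induction m with
    | zero => simpa using hπ1
    | succ m ih => rw [pow_succ, h1 _ _ (pow_mem hg m) hg, ih, pow_succ]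
  obtain ⟨z, rfl⟩ : ∃ z, x = z + 1 := ⟨x - 1, by omega⟩
  have hz : 1 ≤ z := by omega
  have ht : ∀ j, c.t (z + 1 + j) ∈ c.P (z + 1) := fun j => c.down (c.t_mem _ (by omega)) (by omega)
  have hN : ∀ m : ℕ, ⁅c.s ^ m, c.t z⁆ ∈ c.P (z + 1) := fun m => c.comm_top _ _ _ (c.t_mem z hz)
  have key := norm_formula σ (fun j => π (c.t (z + 1 + j))) (fun j => by
      rw [h3 _ (ht j), ← h1 _ _ (ht (j + 1)) (ht j), ← add_assoc, c.t_succ (z + 1 + j) (by omega)]
      simp [commutatorElement_def])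
    (fun m => π ⁅c.s ^ m, c.t z⁆) (by simpa using hπ1) (fun m => by
      rw [h3 _ (hN m), ← h1 _ _ (c.conj_mem (hN m) _) (ht 0), pow_succ',
        commutatorElement_mul_left_eq_conj_mul, add_zero, c.t_succ z hz]) p
  have k1 : π ⁅c.s ^ p, c.t z⁆ = 1 :=
    (h2 _ (hN p)).2 (c.down (c.comm _ _ _ _ (c.s_pow_mem (M - 1) (by omega)) (c.t_mem z hz)) (by omega))
  obtain ⟨r, rfl⟩ : ∃ r, q = r + 1 := ⟨q - 1, by omega⟩
  have k2 : ∏ j ∈ range p, π (c.t (z + 1 + j)) ^ (p.choose (j + 1)) =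
      π (c.t (z + 1)) ^ p * π (c.t (z + 1 + (r + 1))) := by
    have e : range p = range (r + 1 + 1) := by rw [← hq]
    rw [e, prod_range_succ, prod_range_succ', prod_eq_one, ← hq]
    · simp
    · intro j hj
      obtain ⟨k, hk⟩ := hp.out.dvd_choose_self (k := j + 1 + 1) (by omega)
        (by have := mem_range.1 hj; omega)
      rw [hk, pow_mul, ← hpow _ (ht _), (h2 _ (pow_mem (ht _) _)).2, one_pow]
      exact IH _ (c.down (c.t_mem _ (by omega)) (by omega))
  simp only [k1, k2] at key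
  have tx := c.t_mem (z + 1) (by omega)
  have k3 := c.κ_t (z + 1) (by omega) hxM
  obtain ⟨m, hm, hm'⟩ := c.decomp tx (fun h => by
    rw [c.κ_hi h] at k3
    exact zero_ne_one k3) hg
  rw [k3, mul_one] at hm
  refine ⟨m, hm, ?_⟩
  have k4 : π g = π (g * (c.t (z + 1) ^ m)⁻¹) * π (c.t (z + 1)) ^ m := by
    rw [← hpow _ tx, ← h1 _ _ (c.down hm' (by omega)) (pow_mem tx m), inv_mul_cancel_right]
  rw [← h2 _ (mul_mem (pow_mem hg p) (pow_mem (ht _) m)), h1 _ _ (pow_mem hg p) (pow_mem (ht _) m),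
    hpow _ hg, hpow _ (ht _), k4, mul_pow, ← hpow _ (c.down hm' (by omega)),
    (h2 _ (pow_mem (c.down hm' (by omega)) p)).2 (IH _ hm'), one_mul, ← pow_mul, mul_comm m p,
    pow_mul, ← mul_pow, ← key, one_pow]

theorem pow_mem_level {q : ℕ} (hq : p = q + 1) (d : ℕ) : ∀ x, p ≤ x → M ≤ x + d → ∀ v, v ≤ M →
    v ≤ x + q → ∀ g, g ∈ c.P x → g ^ p ∈ c.P v := by
  induction d with
  | zero => exact fun x _ h v hv _ g hg => c.down (pow_mem hg p) (by omega)
  | succ d ih =>
    intro x hx h v hv hv' g hg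
    rcases le_or_gt M x with h1 | h1
    · exact c.down (pow_mem hg p) (by omega)
    obtain ⟨m, -, hm⟩ := c.pow_step hq hx h1 hv (by omega)
      (ih (x + 1) (by omega) (by omega) v hv (by omega)) hg
    have h2 : c.t (x + q) ^ m ∈ c.P v :=
      pow_mem (c.down (c.t_mem _ (by have := hp.out.pos; omega)) hv') m
    simpa using mul_mem hm (inv_mem h2)

theorem κ_pow_p {q x : ℕ} (hq : p = q + 1) (hx : p ≤ x) (hM : x + q < M) {g : G} (hg : g ∈ c.P x) :
    g ^ p ∈ c.P (x + q) ∧ c.κ (x + q) (g ^ p) = - c.κ x g := by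
  have h0 := c.pow_mem_level hq M x hx (by omega) (x + q) hM.le le_rfl g hg
  refine ⟨h0, ?_⟩
  obtain ⟨m, hm, hm'⟩ := c.pow_step hq hx (by omega) (v := x + q + 1) hM (by omega)
    (c.pow_mem_level hq M (x + 1) (by omega) (by omega) _ hM (by omega)) hg
  have h1 := c.t_mem (x + q) (by have := hp.out.pos; omega)
  have h2 := c.κ_hi hm'
  rw [c.κ_mul _ _ _ h0 (pow_mem h1 m), c.κ_pow h1, c.κ_t _ (by have := hp.out.pos; omega) hM,
    hm] at h2
  linear_combination h2

theorem γ_per {a l q x y : ℕ} (H : c.Sh a l M) (ha : 1 ≤ a) (hq : p = q + 1) (hx : p ≤ x)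
    (hx' : a ≤ x) (hy : a ≤ y) (hM : x + y + l + q < M) : c.γ l (x + q) y = c.γ l x y := by
  have tx := c.t_mem x (by omega)
  have ty := c.t_mem y (by omega)
  have h0 : ∀ m : ℕ, ⁅c.t x ^ m, c.t y⁆ ∈ c.P (x + y + l) := fun m =>
    H x y _ _ _ hx' hy le_rfl (by omega) (pow_mem tx m) ty
  have hc : ⁅c.t x, c.t y⁆ ∈ c.P (x + y + l) := by simpa using h0 1
  have h1 : ∀ m : ℕ, ⁅c.t x ^ m, c.t y⁆ * (⁅c.t x, c.t y⁆ ^ m)⁻¹ ∈ c.P (x + y + l + q + 1) := by
    intro m
    induction m with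
    | zero => simp
    | succ m ih =>
      have e : ⁅c.t x ^ (m + 1), c.t y⁆ * (⁅c.t x, c.t y⁆ ^ (m + 1))⁻¹ =
          ⁅c.t x, ⁅c.t x ^ m, c.t y⁆⁆ * (⁅c.t x ^ m, c.t y⁆ * (⁅c.t x, c.t y⁆ ^ m)⁻¹) := by
        rw [pow_succ', commutatorElement_mul_left_eq_conj_mul, pow_succ,
          commutatorElement_def (c.t x) ⁅c.t x ^ m, c.t y⁆]
        group
      rw [e]
      exact mul_mem (c.down (c.comm _ _ _ _ tx (h0 m)) (by omega)) ih
  obtain ⟨a1, a2⟩ := c.κ_pow_p hq hx (by omega) tx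
  obtain ⟨b1, b2⟩ := c.κ_pow_p hq (x := x + y + l) (by omega) hM hc
  have e1 := c.bilin H ha (x := x + q) (y := y) (by omega) hy (by omega) a1 ty
  have m1 : ⁅c.t x ^ p, c.t y⁆ ∈ c.P (x + y + l + q) :=
    H (x + q) y _ _ _ (by omega) hy (by omega) hM.le a1 ty
  have e2 := c.κ_hi (h1 p)
  rw [c.κ_mul _ _ _ m1 (inv_mem b1), c.κ_inv b1, b2] at e2
  rw [a2, c.κ_t x (by omega) (by omega), c.κ_t y (by omega) (by omega),
    show x + q + y + l = x + y + l + q by omega] at e1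
  rw [e1] at e2
  rw [show c.γ l x y = c.κ (x + y + l) ⁅c.t x, c.t y⁆ from rfl]
  linear_combination -e2

end Ctx

end Pool.Agent.MP_565547_al.H26
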