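import Mathlib
import Pool.Agent.MP_565547_al.H26.Power

/-!
Two-step centralisers and the existence of a uniform element.
-/

namespace Pool.Agent.MP_565547_al.H26

open scoped commutatorElement

section arith

variable {F : Type} [Field F] {γ : ℕ → ℕ → F} {k M : ℕ}

theorem arith_low (hR : ∀ x y, 1 ≤ x → 1 ≤ y → x + y + 1 + 0 < M → γ x y = γ (x + 1) y + γ x (y + 1))
    (hM : k + 2 ≤ M) (h1 : ∀ i, 1 ≤ i → i < k → γ 1 i = 0) (i : ℕ) :
    ∀ y, 1 ≤ y → i + y < k → γ (i + 1) y = 0 := by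
  induction i with
  | zero => exact fun y hy h => h1 y hy (by omega)
  | succ i ih =>
    intro y hy h
    have e := hR (i + 1) y (by omega) hy (by omega)
    rw [ih y hy (by omega), ih (y + 1) (by omega) (by omega)] at e
    linear_combination -e

theorem arith_mid (hR : ∀ x y, 1 ≤ x → 1 ≤ y → x + y + 1 + 0 < M → γ x y = γ (x + 1) y + γ x (y + 1))
    (hM : k + 2 ≤ M) (h1 : ∀ i, 1 ≤ i → i < k → γ 1 i = 0) (i : ℕ) :
    ∀ y, 1 ≤ y → i + y = k → γ (i + 1) y = (-1) ^ i * γ 1 k := by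
  induction i with
  | zero =>
    intro y _ h
    simp [← h]
  | succ i ih =>
    intro y hy h
    have e := hR (i + 1) y (by omega) hy (by omega)
    rw [arith_low hR hM h1 i y hy (by omega), ih (y + 1) (by omega) (by omega)] at e
    linear_combination -e

theorem arith_hi (hR : ∀ x y, 1 ≤ x → 1 ≤ y → x + y + 1 + 0 < M → γ x y = γ (x + 1) y + γ x (y + 1))
    (hM : k + 3 ≤ M) (h1 : ∀ i, 1 ≤ i → i < k → γ 1 i = 0) (h2 : γ 1 (k + 1) = 0) (i : ℕ) :
    ∀ y, 1 ≤ y → i + y = k + 1 → γ (i + 1) y = (-1) ^ (i + 1) * i * γ 1 k := by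
  induction i with
  | zero =>
    intro y _ h
    rw [zero_add] at h
    simp [h, h2]
  | succ i ih =>
    intro y hy h
    have e := hR (i + 1) y (by omega) hy (by omega)
    rw [arith_mid hR (k := k) (by omega) h1 i y hy (by omega), ih (y + 1) (by omega) (by omega)] at e
    push_cast
    linear_combination -e

end arith

variable {p : ℕ} {G : Type} [Group G]

theorem comm_mem_iff (N : Subgroup G) [N.Normal] (g h : G) :
    ⁅g, h⁆ ∈ N ↔ Commute (QuotientGroup.mk' N g) (QuotientGroup.mk' N h) := by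
  rw [← commutatorElement_eq_one_iff_commute, ← map_commutatorElement, QuotientGroup.mk'_apply,
    QuotientGroup.eq_one_iff]

theorem comm_symm {N : Subgroup G} {g h : G} (H : ⁅g, h⁆ ∈ N) : ⁅h, g⁆ ∈ N := by
  rw [← commutatorElement_inv]
  exact inv_mem H

theorem cyc {K H N : Subgroup G} [N.Normal] {u : G} (hu : u ∈ K)
    (hd : ∀ g, g ∈ K → ∃ m : ℤ, g * (u ^ m)⁻¹ ∈ H)
    (hc : ∀ g h, g ∈ K → h ∈ H → ⁅g, h⁆ ∈ N) {g h : G} (hg : g ∈ K) (hh : h ∈ K) : ⁅g, h⁆ ∈ N := by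
  simp only [comm_mem_iff] at hc ⊢
  obtain ⟨a, ha⟩ := hd g hg
  obtain ⟨b, hb⟩ := hd h hh
  have e1 : g = g * (u ^ a)⁻¹ * u ^ a := by group
  have e2 : h = h * (u ^ b)⁻¹ * u ^ b := by group
  rw [e2, map_mul]
  refine (hc _ _ hg hb).mul_right ?_
  rw [e1, map_mul]
  refine (hc _ _ (zpow_mem hu b) ha).symm.mul_left ?_
  rw [map_zpow, map_zpow]
  exact (Commute.refl _).zpow_zpow a b

namespace Fil

variable (F : Fil p G)

/-- The two-step centralisers. -/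
def Cen (i : ℕ) : Subgroup G where
  carrier := {g | ∀ h, h ∈ F.P i → ⁅g, h⁆ ∈ F.P (i + 2)}
  mul_mem' := by
    intro a b ha hb h hh
    rw [commutatorElement_mul_left_eq_conj_mul]
    exact mul_mem (F.conj_mem (hb h hh) a) (ha h hh)
  one_mem' := by
    intro h _
    simp
  inv_mem' := by
    intro a ha h hh
    rw [commutatorElement_inv_left]
    simpa using F.conj_mem (comm_symm (ha h hh)) a⁻¹

theorem two_le_Cen (i : ℕ) {g : G} (hg : g ∈ F.P 2) : g ∈ F.Cen i :=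
  fun h hh => F.down (F.comm 2 i g h hg hh) (by omega)

variable [hp : Fact p.Prime]

theorem gen {K : Subgroup G} {w : ℕ} {u : G} (hu : u ∈ F.P w) (hu' : u ∉ F.P (w + 1))
    (h1 : F.P (w + 1) ≤ K) (h2 : u ∈ K) : F.P w ≤ K := by
  intro g hg
  obtain ⟨m, -, hm⟩ := F.decomp hu hu' hg
  simpa using mul_mem (h1 hm) (pow_mem h2 m)

theorem mem_Cen {w : ℕ} {u g : G} (hu : u ∈ F.P w) (hu' : u ∉ F.P (w + 1))
    (h : ⁅g, u⁆ ∈ F.P (w + 2)) : g ∈ F.Cen w := by
  have := F.normal (w + 2)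
  intro h hh
  obtain ⟨m, -, hm⟩ := F.decomp hu hu' hh
  have h1 := F.comm_top (w + 1) g _ hm
  have e : h = h * (u ^ m)⁻¹ * u ^ m := by group
  rw [comm_mem_iff] at *
  rw [e, map_mul, map_pow]
  exact h1.mul_right (Commute.pow_right ‹_› m)

end Fil

/-- The iterated commutators. -/
def tseq (s y : G) : ℕ → G
  | 0 => y
  | w + 1 => ⁅s, tseq s y w⁆

/-- The filtration of a group of maximal class. -/
structure MaxCl (F : Fil p G) (n : ℕ) (y : G) : Prop where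
  top : F.P 0 = ⊤
  y_mem : y ∈ F.P 1
  y_not : y ∉ F.P 2
  y_cen : y ∈ F.Cen 2
  ex_s : ∃ s, s ∉ F.P 1
  noncomm : ∃ g h : G, ⁅g, h⁆ ∉ F.P 3
  cen_ne : ∀ i, 2 ≤ i → i + 2 ≤ n → ∃ g, g ∉ F.Cen i

namespace MaxCl

variable [hp : Fact p.Prime] {F : Fil p G} {n : ℕ} {y : G} (H : MaxCl F n y)
include H

theorem mem_top (g : G) : g ∈ F.P 0 := by
  rw [H.top]
  trivial

theorem eq_top {i : ℕ} (hy : y ∈ F.Cen i) {s : G} (hs : s ∉ F.P 1) (hs' : s ∈ F.Cen i) (g : G) :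
    g ∈ F.Cen i :=
  F.gen (H.mem_top s) hs (F.gen H.y_mem H.y_not (fun _ h => F.two_le_Cen i h) hy) hs' (H.mem_top g)

theorem not_cen {i : ℕ} (h2 : 2 ≤ i) (hi : i + 2 ≤ n) (hy : y ∈ F.Cen i) {s : G} (hs : s ∉ F.P 1) :
    s ∉ F.Cen i := by
  intro hs'
  obtain ⟨g, hg⟩ := H.cen_ne i h2 hi
  exact hg (H.eq_top hy hs hs' g)

theorem not_cen_one {s : G} (hs : s ∉ F.P 1) : s ∉ F.Cen 1 := by
  intro hs'
  have hy : y ∈ F.Cen 1 := F.mem_Cen H.y_mem H.y_not (by simp)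
  obtain ⟨g, h, hgh⟩ := H.noncomm
  have := F.normal 3
  refine hgh (cyc (K := F.P 0) (H := F.P 1) (H.mem_top s) (fun g hg => ?_)
    (fun g h _ hh => H.eq_top hy hs hs' g h hh) (H.mem_top g) (H.mem_top h))
  obtain ⟨m, -, hm⟩ := F.decomp (H.mem_top s) hs hg
  exact ⟨m, by simpa using hm⟩

theorem exists_s {k : ℕ} (h2 : 2 ≤ k) (hk : k + 2 ≤ n) : ∃ s, s ∉ F.P 1 ∧ s ∉ F.Cen k := by
  obtain ⟨g, hg⟩ := H.cen_ne k h2 hk
  obtain ⟨s, hs⟩ := H.ex_s
  by_cases h1 : g ∈ F.P 1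
  · by_cases h3 : s ∈ F.Cen k
    · exact ⟨g * s, fun h => hs (by simpa using mul_mem (inv_mem h1) h),
        fun h => hg (by simpa using mul_mem h (inv_mem h3))⟩
    · exact ⟨s, hs, h3⟩
  · exact ⟨g, h1, hg⟩

theorem mk_ctx {k : ℕ} {s : G} (hs : s ∉ F.P 1) (hk : ∀ i, 2 ≤ i → i ≤ k → s ∉ F.Cen i) :
    ∃ c : Ctx p G (k + 2), c.P = F.P ∧ ∀ w, c.t (w + 1) = tseq s y w := by
  classical
  have h1 : ∀ w, tseq s y w ∈ F.P (w + 1) := by
    intro w
    induction w with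
    | zero => exact H.y_mem
    | succ w ih => exact F.comm_top _ _ _ ih
  have h2 : ∀ w, w ≤ k → tseq s y w ∉ F.P (w + 1 + 1) := by
    intro w
    induction w with
    | zero => exact fun _ => H.y_not
    | succ w ih =>
      intro hw h
      have h3 := F.mem_Cen (h1 w) (ih (by omega)) h
      rcases Nat.eq_zero_or_pos w with h4 | h4
      · rw [h4] at h3
        exact H.not_cen_one hs h3
      · exact hk (w + 1) (by omega) hw h3
  let r : ℕ → ZMod p := fun w =>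
    if F.κ w (tseq s y (w - 1)) = 0 then 1 else (F.κ w (tseq s y (w - 1)))⁻¹
  have hr : ∀ w, r w ≠ 0 := by
    intro w
    simp only [r]
    split_ifs with h
    · exact one_ne_zero
    · exact inv_ne_zero h
  refine ⟨{ F with
    κ := fun w g => F.κ w g * r w
    κ_mul := fun w g h hg hh => by rw [F.κ_mul w g h hg hh, add_mul]
    κ_zero := fun w g hg => by rw [mul_eq_zero, or_iff_left (hr w), F.κ_zero w g hg]
    s := s
    t := fun w => tseq s y (w - 1)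
    s_pow := F.pow_p (H.mem_top s)
    t_mem := fun w hw => by
      obtain ⟨v, rfl⟩ : ∃ v, w = v + 1 := ⟨w - 1, by omega⟩
      exact h1 v
    t_succ := fun w hw => by
      obtain ⟨v, rfl⟩ : ∃ v, w = v + 1 := ⟨w - 1, by omega⟩
      rfl
    κ_t := fun w hw hw' => by
      obtain ⟨v, rfl⟩ : ∃ v, w = v + 1 := ⟨w - 1, by omega⟩
      have h3 : F.κ (v + 1) (tseq s y (v + 1 - 1)) ≠ 0 := fun h =>
        h2 v (by omega) ((F.κ_zero _ _ (h1 v)).1 h)
      simp only [r, h3, if_false]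
      exact mul_inv_cancel₀ h3 }, rfl, fun w => rfl⟩

end MaxCl

theorem Ctx.γ_one [hp : Fact p.Prime] {M : ℕ} (c : Ctx p G M) {F : Fil p G} (hP : c.P = F.P) {i : ℕ}
    (h1 : 1 ≤ i) (hi : i < M) : c.γ 0 1 i = 0 ↔ c.t 1 ∈ F.Cen i := by
  have ti := c.t_mem i h1
  have h2 : c.t i ∉ c.P (i + 1) := fun h => by
    have := c.κ_t i h1 hi
    rw [c.κ_hi h] at this
    exact zero_ne_one this
  rw [Ctx.γ, show 1 + i + 0 = i + 1 by omega, c.κ_zero _ _ (c.comm_top i _ _ ti)]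
  rw [hP] at *
  exact ⟨fun h => F.mem_Cen ti h2 h, fun h => h _ ti⟩

theorem MaxCl.blackburn [hp : Fact p.Prime] {F : Fil p G} {n : ℕ} {y : G} (H : MaxCl F n y) (k : ℕ) :
    2 ≤ k → k + 3 ≤ n → y ∈ F.Cen k := by
  induction k using Nat.strong_induction_on with
  | _ k ih =>
  intro h2 hk
  rcases h2.eq_or_lt with h3 | h3
  · rw [← h3]
    exact H.y_cen
  by_contra hy
  obtain ⟨s, hs, hs'⟩ := H.exists_s h2 (by omega)
  have hlow : ∀ i, 1 ≤ i → i < k → y ∈ F.Cen i := by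
    intro i h4 h5
    rcases h4.eq_or_lt with h6 | h6
    · rw [← h6]
      exact F.mem_Cen H.y_mem H.y_not (by simp)
    · exact ih i h5 h6 (by omega)
  have hu : ∀ i, 2 ≤ i → i ≤ k → s ∉ F.Cen i := by
    intro i h4 h5
    rcases h5.eq_or_lt with h6 | h6
    · rwa [h6]
    · exact H.not_cen h4 (by omega) (hlow i (by omega) h6) hs
  obtain ⟨c, hP, ht⟩ := H.mk_ctx hs hu
  have hy1 : c.t 1 = y := ht 0
  have c1 : ∀ i, 1 ≤ i → i < k → c.γ 0 1 i = 0 := fun i h4 h5 => by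
    rw [c.γ_one hP h4 (by omega), hy1]
    exact hlow i h4 h5
  have c2 : c.γ 0 1 k ≠ 0 := by
    rw [Ne, c.γ_one hP (by omega) (by omega), hy1]
    exact hy
  have c3 := arith_mid (c.γ_rec (c.sh_zero 1 _) le_rfl) le_rfl c1
  obtain ⟨b, hb⟩ : ∃ b, k = 2 * (b + 1) := by
    rcases Nat.even_or_odd' k with ⟨b, hb | hb⟩
    · exact ⟨b - 1, by omega⟩
    · have := c3 b (b + 1) (by omega) (by omega)
      rw [c.γ_self] at this
      exact absurd this.symm (mul_ne_zero (pow_ne_zero _ (neg_ne_zero.2 one_ne_zero)) c2)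
  have tb := c.t_mem (b + 1) (by omega)
  have tb' := c.t_mem (b + 2) (by omega)
  have c4 : ⁅c.t (b + 1), c.t (b + 2)⁆ ∈ c.P (k + 1) := c.down (c.comm _ _ _ _ tb tb') (by omega)
  have c5 : ⁅c.t (b + 1), c.t (b + 2)⁆ ∉ c.P (k + 1 + 1) := by
    intro h
    have := c3 b (b + 2) (by omega) (by omega)
    rw [Ctx.γ, show b + 1 + (b + 2) + 0 = k + 1 by omega, c.κ_hi h] at this
    exact absurd this.symm (mul_ne_zero (pow_ne_zero _ (neg_ne_zero.2 one_ne_zero)) c2)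
  rw [hP] at tb tb' c4 c5
  have c6 : y ∈ F.Cen (k + 1) := by
    have e := commutatorElement_commutatorElement_conj_mul (c.t (b + 1)) (c.t (b + 2)) y
    have m2 : ⁅⁅c.t (b + 2), y⁆, y * c.t (b + 1) * y⁻¹⁆ ∈ F.P (k + 1 + 2) :=
      F.down (F.comm _ _ _ _ (comm_symm (hlow (b + 2) (by omega) (by omega) _ tb'))
        (F.conj_mem tb y)) (by omega)
    have m3 : ⁅⁅y, c.t (b + 1)⁆, c.t (b + 1) * c.t (b + 2) * (c.t (b + 1))⁻¹⁆ ∈ F.P (k + 1 + 2) :=
      F.down (F.comm _ _ _ _ (hlow (b + 1) (by omega) (by omega) _ tb)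
        (F.conj_mem tb' _)) (by omega)
    rw [mul_assoc, mul_eq_one_iff_eq_inv] at e
    have m1 := F.mem_Cen c4 c5 (comm_symm (e ▸ inv_mem (mul_mem m2 m3)))
    have m4 := F.two_le_Cen (k + 1) (F.comm_top 1 (c.t (b + 2)) y H.y_mem)
    simpa [commutatorElement_def, mul_assoc] using mul_mem (inv_mem m4) m1
  obtain ⟨d, hP', ht'⟩ := H.mk_ctx (k := k + 1) hs (fun i h4 h5 => by
    rcases h5.eq_or_lt with h6 | h6
    · rw [h6]
      exact H.not_cen (by omega) (by omega) c6 hs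
    · exact hu i h4 (by omega))
  have hy2 : d.t 1 = y := ht' 0
  have d1 : ∀ i, 1 ≤ i → i < k → d.γ 0 1 i = 0 := fun i h4 h5 => by
    rw [d.γ_one hP' h4 (by omega), hy2]
    exact hlow i h4 h5
  have d2 : d.γ 0 1 k ≠ 0 := by
    rw [Ne, d.γ_one hP' (by omega) (by omega), hy2]
    exact hy
  have d3 : d.γ 0 1 (k + 1) = 0 := by
    rw [d.γ_one hP' (by omega) (by omega), hy2]
    exact c6
  have d4 := arith_hi (d.γ_rec (d.sh_zero 1 _) le_rfl) le_rfl d1 d3 (b + 1) (b + 2) (by omega)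
    (by omega)
  rw [d.γ_self] at d4
  have d5 : ((b + 1 : ℕ) : ZMod p) = 0 := by
    by_contra h
    exact absurd d4.symm (mul_ne_zero (mul_ne_zero (pow_ne_zero _ (neg_ne_zero.2 one_ne_zero)) h) d2)
  have d6 : p ≤ b + 1 := Nat.le_of_dvd (by omega) ((ZMod.natCast_eq_zero_iff _ _).1 d5)
  have hp2 := hp.out.two_le
  have d7 := d.γ_per (d.sh_zero 1 _) le_rfl (q := p - 1) (x := k - (p - 1)) (y := 1) (by omega)
    (by omega) (by omega) le_rfl (by omega)
  rw [show k - (p - 1) + (p - 1) = k by omega, d.γ_anti (d.sh_zero 1 _) le_rfl 1 k le_rfl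
    (by omega) (by omega), d.γ_anti (d.sh_zero 1 _) le_rfl 1 (k - (p - 1)) le_rfl
    (by omega) (by omega), d1 (k - (p - 1)) (by omega) (by omega)] at d7
  exact d2 (neg_injective d7)

theorem MaxCl.exists_ctx [hp : Fact p.Prime] {F : Fil p G} {n : ℕ} {y : G} (H : MaxCl F n y)
    (hn : 4 ≤ n) : ∃ c : Ctx p G n, c.P = F.P := by
  obtain ⟨k, rfl⟩ : ∃ k, n = k + 2 := ⟨n - 2, by omega⟩
  obtain ⟨s, hs, hs'⟩ := H.exists_s (k := k) (by omega) le_rfl
  obtain ⟨c, hc, -⟩ := H.mk_ctx (k := k) hs (fun i h4 h5 => by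
    rcases h5.eq_or_lt with h6 | h6
    · rwa [h6]
    · exact H.not_cen h4 (by omega) (H.blackburn i h4 (by omega)) hs)
  exact ⟨c, hc⟩

end Pool.Agent.MP_565547_al.H26
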