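import Mathlib
import Pool.Agent.MP_565547_al.H26.Struct

/-!
The filtration attached to a group of maximal class.
-/

namespace Pool.Agent.MP_565547_al.H26

open scoped commutatorElement

variable {p : ℕ} {G : Type} [Group G]

theorem three_sub {A B C N : Subgroup G} [N.Normal] (h1 : ⁅⁅B, C⁆, A⁆ ≤ N) (h2 : ⁅⁅C, A⁆, B⁆ ≤ N) :
    ⁅⁅A, B⁆, C⁆ ≤ N := by
  rw [← QuotientGroup.ker_mk' N, ← Subgroup.map_eq_bot_iff] at h1 h2 ⊢
  simp only [Subgroup.map_commutator] at h1 h2 ⊢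
  exact Subgroup.commutator_commutator_eq_bot_of_rotate h1 h2

/-- The lower central series. -/
abbrev L (G : Type) [Group G] (i : ℕ) : Subgroup G := (⊤ : Subgroup G).lowerCentralSeries i

theorem L_comm (j : ℕ) : ∀ i, ⁅L G i, L G j⁆ ≤ L G (i + j + 1) := by
  induction j with
  | zero => exact fun i => le_rfl
  | succ j ih =>
    intro i
    rw [Subgroup.commutator_comm, show L G (j + 1) = ⁅L G j, ⊤⁆ from rfl]
    apply three_sub
    · rw [Subgroup.commutator_comm ⊤]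
      have := ih (i + 1)
      rwa [show i + 1 + j + 1 = i + (j + 1) + 1 by omega] at this
    · exact Subgroup.commutator_mono (ih i) le_rfl

theorem L_top {i : ℕ} (g : G) {h : G} (hh : h ∈ L G i) : ⁅g, h⁆ ∈ L G (i + 1) :=
  comm_symm (Subgroup.commutator_mem_commutator hh (Subgroup.mem_top g))

theorem L_stable {i : ℕ} (h : L G i ≤ L G (i + 1)) (j : ℕ) : L G i ≤ L G (i + j) := by
  induction j with
  | zero => exact le_rfl
  | succ j ih => exact h.trans (Subgroup.commutator_mono ih le_rfl)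

theorem exists_kappa [hp : Fact p.Prime] (K H : Subgroup G) [H.Normal] (hi : H.relIndex K ∣ p) :
    ∃ κ : G → ZMod p, (∀ g h, g ∈ K → h ∈ K → κ (g * h) = κ g + κ h) ∧
      ∀ g, g ∈ K → (κ g = 0 ↔ g ∈ H) := by
  classical
  rcases (Nat.dvd_prime hp.out).1 hi with h | h
  · exact ⟨fun _ => 0, by simp, fun g hg => by simpa using Subgroup.relIndex_eq_one.1 h hg⟩
  let e : (K ⧸ H.subgroupOf K) ≃* Multiplicative (ZMod p) :=
    mulEquivOfPrimeCardEq (p := p) h (by simp)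
  refine ⟨fun g => if h : g ∈ K then (e (QuotientGroup.mk ⟨g, h⟩)).toAdd else 0, ?_, ?_⟩
  · intro g h hg hh
    simp only [hg, hh, mul_mem hg hh, dif_pos]
    rw [← toAdd_mul, ← map_mul]
    rfl
  · intro g hg
    simp only [hg, dif_pos]
    rw [toAdd_eq_zero, map_eq_one_iff e e.injective, QuotientGroup.eq_one_iff]
    rfl

theorem exists_fil [hp : Fact p.Prime] (P : ℕ → Subgroup G) (normal : ∀ i, (P i).Normal)
    (anti : ∀ i j, i ≤ j → P j ≤ P i)
    (comm : ∀ x y g h, g ∈ P x → h ∈ P y → ⁅g, h⁆ ∈ P (x + y))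
    (comm_top : ∀ x (g h : G), h ∈ P x → ⁅g, h⁆ ∈ P (x + 1))
    (hi : ∀ w, (P (w + 1)).relIndex (P w) ∣ p) : ∃ F : Fil p G, F.P = P := by
  choose κ h1 h2 using fun w => exists_kappa (P w) (P (w + 1)) (hi w)
  exact ⟨⟨P, κ, normal, anti, comm, comm_top, h1, h2⟩, rfl⟩

theorem L_one_le [hp : Fact p.Prime] (h : (L G 1).index ∣ p) : L G 1 ≤ L G 2 := by
  have : IsCyclic (G ⧸ L G 1) := isCyclic_of_card_dvd_prime (p := p) h
  obtain ⟨u, hu⟩ := IsCyclic.exists_generator (α := G ⧸ L G 1)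
  obtain ⟨u, rfl⟩ := QuotientGroup.mk_surjective u
  rw [show L G 1 = ⁅⊤, ⊤⁆ from rfl, Subgroup.commutator_le]
  intro g hg h hh
  refine cyc (K := ⊤) (H := L G 1) (Subgroup.mem_top u) (fun g _ => ?_)
    (fun g h _ hh => L_top g hh) hg hh
  obtain ⟨m, hm⟩ := hu (QuotientGroup.mk g)
  refine ⟨m, ?_⟩
  rw [← QuotientGroup.eq_one_iff, QuotientGroup.mk_mul, QuotientGroup.mk_inv, QuotientGroup.mk_zpow,
    ← hm]
  exact mul_inv_cancel _

theorem L_anti {i j : ℕ} (h : i ≤ j) : L G j ≤ L G i := Subgroup.lowerCentralSeries_antitone _ h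

theorem L_comm' {i j : ℕ} {g h : G} (hg : g ∈ L G i) (hh : h ∈ L G j) : ⁅g, h⁆ ∈ L G (i + j + 1) :=
  L_comm j i (Subgroup.commutator_mem_commutator hg hh)

/-- The refined series. -/
def Pf (C : Subgroup G) : ℕ → Subgroup G
  | 0 => ⊤
  | 1 => C
  | i + 2 => L G (i + 1)

theorem Pf_normal {C : Subgroup G} (hC : C.Normal) : ∀ i, (Pf C i).Normal
  | 0 => (inferInstance : (⊤ : Subgroup G).Normal)
  | 1 => hC
  | i + 2 => (inferInstance : (L G (i + 1)).Normal)

theorem Pf_top {C : Subgroup G} (hle : L G 1 ≤ C) :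
    ∀ x (g h : G), h ∈ Pf C x → ⁅g, h⁆ ∈ Pf C (x + 1)
  | 0, g, _, hh => hle (L_top (i := 0) g hh)
  | 1, g, h, _ => L_top (i := 0) g (Subgroup.mem_top h)
  | x + 2, g, _, hh => L_top (i := x + 1) g hh

theorem Pf_anti {C : Subgroup G} (hle : L G 1 ≤ C) : ∀ i j, i ≤ j → Pf C j ≤ Pf C i := by
  have : ∀ i, Pf C (i + 1) ≤ Pf C i := by
    rintro (_ | _ | i)
    · exact le_top
    · exact hle
    · exact L_anti (Nat.le_succ (i + 1))
  exact fun i j h => antitone_nat_of_succ_le this h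

theorem Pf_comm {C : Subgroup G} (hle : L G 1 ≤ C) (x y : ℕ) (g h : G) (hg : g ∈ Pf C x)
    (hh : h ∈ Pf C y) : ⁅g, h⁆ ∈ Pf C (x + y) := by
  rcases le_or_gt x 1 with h1 | h1
  · exact Pf_anti hle _ _ (by omega) (Pf_top hle y g h hh)
  rcases le_or_gt y 1 with h2 | h2
  · exact Pf_anti hle _ _ (by omega) (comm_symm (Pf_top hle x h g hg))
  obtain ⟨x, rfl⟩ : ∃ i, x = i + 2 := ⟨x - 2, by omega⟩
  obtain ⟨y, rfl⟩ : ∃ i, y = i + 2 := ⟨y - 2, by omega⟩
  rw [show x + 2 + (y + 2) = x + 1 + (y + 1) + 2 by omega]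
  exact L_comm' (i := x + 1) (j := y + 1) hg hh

section

variable [hp : Fact p.Prime] [Finite G] {n : ℕ} (hG : Nat.card G = p ^ n)
  (hc : Group.nilpotencyClass G = n - 1)
include hG hc

theorem L_bot_iff (i : ℕ) : L G i = ⊥ ↔ n - 1 ≤ i := by
  have : Group.IsNilpotent G := (IsPGroup.of_card hG).isNilpotent
  rw [Subgroup.lowerCentralSeries_eq_bot_iff_nilpotencyClass_le, hc]

theorem L_strict {i : ℕ} (hi : i + 1 < n) : ¬ L G i ≤ L G (i + 1) := by
  intro h
  have h1 := L_stable h n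
  rw [(L_bot_iff hG hc (i + n)).2 (by omega), le_bot_iff, L_bot_iff hG hc] at h1
  omega

theorem L_index (hn : 3 ≤ n) (i : ℕ) (h1 : 1 ≤ i) (hi : i < n) : (L G i).index = p ^ (i + 1) := by
  have hp1 := hp.out.one_lt
  have h0 : ∀ i, ∃ e, (L G i).index = p ^ e := fun i => by
    obtain ⟨e, -, he⟩ := (Nat.dvd_prime_pow hp.out).1 (hG ▸ Subgroup.index_dvd_card (L G i))
    exact ⟨e, he⟩
  choose e he using h0
  have hs : ∀ i, i + 1 < n → e i + 1 ≤ e (i + 1) := by
    intro i hi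
    have h2 : L G (i + 1) ≤ L G i := Subgroup.lowerCentralSeries_antitone _ (Nat.le_succ i)
    have h3 := Subgroup.relIndex_mul_index h2
    have h4 : (L G (i + 1)).relIndex (L G i) ≠ 1 := fun h =>
      L_strict hG hc hi (Subgroup.relIndex_eq_one.1 h)
    rw [he, he] at h3
    have h5 : e i ≤ e (i + 1) := (Nat.pow_dvd_pow_iff_le_right hp1).1 ⟨_, by rw [← h3, mul_comm]⟩
    rcases h5.eq_or_lt with h6 | h6
    · rw [← h6] at h3
      exact absurd (by simpa [hp.out.ne_zero] using h3) h4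
    · exact h6
  have h2 : 2 ≤ e 1 := by
    by_contra h
    apply L_strict hG hc (i := 1) (by omega)
    apply L_one_le (p := p)
    rw [he]
    simpa using pow_dvd_pow p (show e 1 ≤ 1 by omega)
  have h3 : e (n - 1) = n := by
    have := he (n - 1)
    rw [(L_bot_iff hG hc _).2 le_rfl, Subgroup.index_bot, hG] at this
    exact (Nat.pow_right_injective hp1 this).symm
  have h4 : ∀ d j, j + d < n → e j + d ≤ e (j + d) := by
    intro d j
    induction d with
    | zero => simp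
    | succ d ih =>
      intro h
      have := hs (j + d) h
      have := ih (by omega)
      rw [← add_assoc, ← add_assoc]
      omega
  have h5 := h4 (i - 1) 1 (by omega)
  have h6 := h4 (n - 1 - i) i (by omega)
  rw [show 1 + (i - 1) = i by omega] at h5
  rw [show i + (n - 1 - i) = n - 1 by omega] at h6
  rw [he, show e i = i + 1 by omega]

theorem L_relIndex (hn : 3 ≤ n) (i : ℕ) : (L G (i + 1 + 1)).relIndex (L G (i + 1)) ∣ p := by
  rcases lt_or_ge (i + 1 + 1) n with h | h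
  · have h3 := Subgroup.relIndex_mul_index (H := L G (i + 1 + 1)) (K := L G (i + 1))
      (Subgroup.lowerCentralSeries_antitone _ (Nat.le_succ _))
    rw [L_index hG hc hn _ (by omega) h, L_index hG hc hn _ (by omega) (by omega), pow_succ' p (i + 1 + 1)]
      at h3
    rw [mul_right_cancel₀ (pow_ne_zero _ hp.out.ne_zero) h3]
  · rw [(L_bot_iff hG hc (i + 1)).2 (by omega), Subgroup.relIndex_bot_right]
    exact one_dvd p

theorem cen_ne_top {F0 : Fil p G} (hP : ∀ i, F0.P i = L G (i + 1)) (i : ℕ) (hi : i + 4 ≤ n) :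
    ∃ g, g ∉ F0.Cen i := by
  by_contra h
  push Not at h
  apply L_strict hG hc (i := i + 2) (by omega)
  rw [show L G (i + 2) = ⁅L G (i + 1), ⊤⁆ from rfl, Subgroup.commutator_le]
  intro g hg h' _
  rw [← hP] at hg
  rw [← hP]
  exact comm_symm (h h' g hg)

theorem exists_first (hn : 4 ≤ n) {F0 : Fil p G} (hP : ∀ i, F0.P i = L G (i + 1)) :
    ∃ C : Subgroup G, C.Normal ∧ (∀ g, g ∈ C ↔ g ∈ F0.Cen 0) ∧ L G 1 ≤ C ∧ C.index = p ∧
      (L G 1).relIndex C = p := by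
  obtain ⟨u, hu, hu'⟩ := SetLike.not_le_iff_exists.1 (L_strict hG hc (i := 1) (by omega))
  replace hu : u ∈ F0.P 0 := by rwa [hP]
  replace hu' : u ∉ F0.P (0 + 1) := by rwa [hP]
  let f : G →* Multiplicative (ZMod p) :=
    MonoidHom.mk' (fun g => Multiplicative.ofAdd (F0.κ (0 + 1) ⁅g, u⁆))
    (fun a b => by rw [F0.κ_left (F0.comm_top 0 _ _ hu) (F0.comm_top 0 _ _ hu), ofAdd_add])
  have hf : ∀ g, g ∈ f.ker ↔ g ∈ F0.Cen 0 := by
    intro g
    rw [MonoidHom.mem_ker]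
    change Multiplicative.ofAdd (F0.κ (0 + 1) ⁅g, u⁆) = 1 ↔ _
    rw [ofAdd_eq_one, F0.κ_zero _ _ (F0.comm_top 0 _ _ hu)]
    exact ⟨F0.mem_Cen hu hu', fun h => h u hu⟩
  have hle : L G 1 ≤ f.ker := fun g hg => (hf g).2 (fun h hh => by
    rw [hP] at hh ⊢
    exact L_comm' (i := 1) (j := 1) hg hh)
  have hi1 : f.ker.index ∣ p := by
    rw [Subgroup.index_ker]
    have := Subgroup.card_subgroup_dvd_card f.range
    rwa [Nat.card_congr Multiplicative.toAdd, Nat.card_zmod] at this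
  have hi2 : f.ker.index = p := by
    rcases (Nat.dvd_prime hp.out).1 hi1 with h | h
    · obtain ⟨g, hg⟩ := cen_ne_top hG hc hP 0 hn
      rw [Subgroup.index_eq_one] at h
      refine absurd ((hf g).1 ?_) hg
      rw [h]
      trivial
    · exact h
  refine ⟨f.ker, inferInstance, hf, hle, hi2, ?_⟩
  have h3 := Subgroup.relIndex_mul_index hle
  rw [hi2, L_index hG hc (by omega) 1 le_rfl (by omega), pow_succ, pow_one] at h3
  exact mul_right_cancel₀ hp.out.ne_zero h3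

theorem exists_maxCl (hn : 4 ≤ n) :
    ∃ (F : Fil p G) (y : G), MaxCl F n y ∧ ∀ i, F.P (i + 2) = L G (i + 1) := by
  obtain ⟨F0, hF0⟩ := exists_fil (p := p) (fun i => L G (i + 1)) (fun i => inferInstance)
    (fun i j h => L_anti (by omega))
    (fun x y g h hg hh => L_anti (by omega) (L_comm' hg hh))
    (fun x g h hh => L_top g hh) (L_relIndex hG hc (by omega))
  have hP : ∀ i, F0.P i = L G (i + 1) := fun i => by rw [hF0]
  obtain ⟨C, hCn, hf, hle, hi2, hi3⟩ := exists_first hG hc hn hP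
  obtain ⟨F, hF⟩ := exists_fil (p := p) (Pf C) (Pf_normal hCn) (Pf_anti hle) (Pf_comm hle)
    (Pf_top hle) (by
      rintro (_ | _ | w)
      · change C.relIndex ⊤ ∣ p
        rw [Subgroup.relIndex_top_right, hi2]
      · change (L G 1).relIndex C ∣ p
        rw [hi3]
      · exact L_relIndex hG hc (by omega) w)
  have hFP : ∀ i, F.P (i + 2) = L G (i + 1) := fun i => by rw [hF]; rfl
  have hFP1 : F.P 1 = C := by rw [hF]; rfl
  have hC : ∀ i g, g ∈ F.Cen (i + 2) ↔ g ∈ F0.Cen i := by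
    intro i g
    change (∀ h, h ∈ F.P (i + 2) → ⁅g, h⁆ ∈ F.P (i + 2 + 2)) ↔
      (∀ h, h ∈ F0.P i → ⁅g, h⁆ ∈ F0.P (i + 2))
    rw [hFP, hFP, hP, hP]
  have hy : ¬ C ≤ L G 1 := fun h => by
    rw [← Subgroup.relIndex_eq_one, hi3] at h
    exact hp.out.ne_one h
  obtain ⟨y, hy1, hy2⟩ := SetLike.not_le_iff_exists.1 hy
  refine ⟨F, y, ⟨by rw [hF]; rfl, by rwa [hFP1], by rwa [hFP 0], (hC 0 y).2 ((hf y).1 hy1),
    ?_, ?_, ?_⟩, hFP⟩
  · obtain ⟨g, hg⟩ := cen_ne_top hG hc hP 0 hn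
    exact ⟨g, fun h => hg ((hf g).1 (by rwa [hFP1] at h))⟩
  · by_contra h
    push Not at h
    apply L_strict hG hc (i := 1) (by omega)
    rw [show L G 1 = ⁅⊤, ⊤⁆ from rfl, Subgroup.commutator_le, ← hFP 1]
    exact fun g _ g' _ => h g g'
  · intro i h2 hi
    obtain ⟨j, rfl⟩ : ∃ j, i = j + 2 := ⟨i - 2, by omega⟩
    obtain ⟨g, hg⟩ := cen_ne_top hG hc hP j (by omega)
    exact ⟨g, fun h => hg ((hC j g).1 h)⟩

theorem exists_ctx (hn : 4 ≤ n) : ∃ c : Ctx p G n, ∀ i, c.P (i + 2) = L G (i + 1) := by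
  obtain ⟨F, y, H, hF⟩ := exists_maxCl hG hc hn
  obtain ⟨c, h⟩ := H.exists_ctx hn
  exact ⟨c, fun i => by rw [h, hF]⟩

end

end Pool.Agent.MP_565547_al.H26
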