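import Mathlib

/-!
Arithmetic of graded structure constants.
-/

namespace Pool.Agent.MP_565547_al.H26

open Finset

section formula

variable {F : Type*} [CommRing F] {γ : ℕ → ℕ → F} {a l M : ℕ}

theorem closed_formula
    (hR : ∀ x y, a ≤ x → a ≤ y → x + y + 1 + l < M → γ x y = γ (x + 1) y + γ x (y + 1))
    (h0 : ∀ x, a ≤ x → x + x + l < M → γ x x = 0) :
    ∀ d x, a ≤ x → x + (x + d) + l < M →
      γ x (x + d) = ∑ i ∈ range d, (-1) ^ i * ((d - i - 1).choose i : F) * γ (x + i) (x + i + 1) := by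
  intro d
  induction d using Nat.strong_induction_on with
  | _ d ih =>
  intro x hx hM
  match d with
  | 0 => simpa using h0 x hx (by simpa using hM)
  | 1 => simp
  | d + 2 =>
    have e1 := hR x (x + (d + 1)) hx (by omega) (by omega)
    have e2 := ih (d + 1) (by omega) x hx (by omega)
    have e3 := ih d (by omega) (x + 1) (by omega) (by omega)
    have e4 : x + 1 + d = x + (d + 1) := by omega
    rw [e4] at e3
    have e5 : x + (d + 2) = x + (d + 1) + 1 := by omega
    rw [e5, sum_range_succ', sum_range_succ]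
    rw [sum_range_succ'] at e2
    have e6 : γ x (x + (d + 1) + 1) = γ x (x + (d + 1)) - γ (x + 1) (x + (d + 1)) := by
      rw [e1]; ring
    rw [e6, e2, e3]
    have e7 : ∀ i ∈ range d, (-1) ^ (i + 1) * ((d + 2 - (i + 1) - 1).choose (i + 1) : F) *
        γ (x + (i + 1)) (x + (i + 1) + 1) =
        (-1) ^ (i + 1) * ((d + 1 - (i + 1) - 1).choose (i + 1) : F) *
          γ (x + (i + 1)) (x + (i + 1) + 1) -
        (-1) ^ i * ((d - i - 1).choose i : F) * γ (x + 1 + i) (x + 1 + i + 1) := by
      intro i hi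
      have hi' := mem_range.1 hi
      have f1 : d + 2 - (i + 1) - 1 = (d - i - 1) + 1 := by omega
      have f2 : d + 1 - (i + 1) - 1 = d - i - 1 := by omega
      have f3 : x + 1 + i = x + (i + 1) := by omega
      rw [f1, f2, f3, Nat.choose_succ_succ']
      push_cast
      ring
    rw [sum_congr rfl e7, sum_sub_distrib]
    have f4 : d + 2 - (d + 1) - 1 = 0 := by omega
    rw [f4]
    simp only [Nat.choose_zero_succ, Nat.choose_zero_right]
    push_cast
    ring

theorem choose_id1 (N k : ℕ) :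
    ((N : F) + 1) * (N.choose k : F) = ((N + 1).choose (k + 1) : F) * ((k : F) + 1) := by
  exact_mod_cast congrArg (Nat.cast : ℕ → F) (Nat.add_one_mul_choose_eq N k)

theorem choose_id2 (N k : ℕ) :
    ((N : F) + 1) * (N.choose (k + 1) : F) = ((N + 1).choose (k + 1) : F) * ((N : F) - k) := by
  rcases le_or_gt k N with h | h
  · have := congrArg (Nat.cast : ℕ → F) (Nat.choose_mul_succ_eq N (k + 1))
    have e : N + 1 - (k + 1) = N - k := by omega
    rw [e] at this
    push_cast [Nat.cast_sub h] at this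
    linear_combination this
  · rw [Nat.choose_eq_zero_of_lt (by omega), Nat.choose_eq_zero_of_lt (by omega)]
    simp

end formula

theorem cast_ne_zero_of_lt {p : ℕ} {m : ℕ} (h0 : 0 < m) (h1 : m < p) : (m : ZMod p) ≠ 0 := by
  intro h
  rw [ZMod.natCast_eq_zero_iff] at h
  exact absurd (Nat.le_of_dvd h0 h) (by omega)

theorem sparse {p : ℕ} [hp : Fact p.Prime] (a : ℕ) :
    ∀ (R j : ℕ) (B : Finset ℕ) (u : ℕ → ZMod p), B.card ≤ R → a + R + j ≤ p →
      (∀ b ∈ B, a + R ≤ b ∧ 2 * b + 2 ≤ a + R + j) →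
      (∀ x, a ≤ x → x < a + R → ∑ b ∈ B, ((j - b - 1).choose (b - x) : ZMod p) * u b = 0) →
      ∀ b ∈ B, u b = 0 := by
  intro R
  induction R with
  | zero =>
    intro j B u hB _ _ _ b hb
    rw [Nat.le_zero, card_eq_zero] at hB
    simp [hB] at hb
  | succ R ih =>
    intro j B u hB hp' hb heq β hβ
    have hjb : ∀ b ∈ B, ((j - b : ℕ) : ZMod p) ≠ 0 := by
      intro b hbB
      have := hb b hbB
      exact cast_ne_zero_of_lt (by omega) (by omega)
    have h1 := ih (j + 1) (B.erase β) (fun b => u b * ((b : ZMod p) - β) / ((j - b : ℕ) : ZMod p))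
      (by rw [card_erase_of_mem hβ]; omega) (by omega)
      (fun b hbB => by have := hb b (mem_of_mem_erase hbB); omega)
      (by
        intro x hx hx'
        have hβ' := hb β hβ
        have hjx : ((j : ZMod p) - x) ≠ 0 := by
          have := cast_ne_zero_of_lt (p := p) (m := j - x) (by omega) (by omega)
          rwa [Nat.cast_sub (by omega)] at this
        set μ : ZMod p := ((x : ZMod p) - β) / ((j : ZMod p) - x) with hμ
        have hμ' : μ * ((j : ZMod p) - x) = (x : ZMod p) - β := by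
          rw [hμ]; field_simp
        have e1 := heq x hx (by omega)
        have e2 := heq (x + 1) (by omega) (by omega)
        rw [sum_erase _ (by simp)]
        have e3 : ∀ b ∈ B, ((j + 1 - b - 1).choose (b - x) : ZMod p) *
            (u b * ((b : ZMod p) - β) / ((j - b : ℕ) : ZMod p)) =
            (1 + 2 * μ) * (((j - b - 1).choose (b - (x + 1)) : ZMod p) * u b) +
              μ * (((j - b - 1).choose (b - x) : ZMod p) * u b) := by
          intro b hbB
          have hb' := hb b hbB
          have hne := hjb b hbB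
          obtain ⟨N, hN⟩ : ∃ N, j = b + N + 1 := ⟨j - b - 1, by omega⟩
          obtain ⟨k, hk⟩ : ∃ k, b = x + k + 1 := ⟨b - x - 1, by omega⟩
          have f1 : j + 1 - b - 1 = N + 1 := by omega
          have f2 : j - b - 1 = N := by omega
          have f3 : b - x = k + 1 := by omega
          have f4 : b - (x + 1) = k := by omega
          have f5 : j - b = N + 1 := by omega
          rw [f5] at hne
          rw [f1, f2, f3, f4, f5]
          have g1 := choose_id1 (F := ZMod p) N k
          have g2 := choose_id2 (F := ZMod p) N k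
          have g3 : (b : ZMod p) = x + k + 1 := by rw [hk]; push_cast; ring
          have g4 : (j : ZMod p) = x + k + 1 + N + 1 := by rw [hN, hk]; push_cast; ring
          push_cast at hne ⊢
          rw [g4] at hμ'
          field_simp
          rw [g3]
          linear_combination (-(1 + 2 * μ) * u b) * g1 - (μ * u b) * g2
            - (((N + 1).choose (k + 1) : ZMod p) * u b) * hμ'
        rw [sum_congr rfl e3, sum_add_distrib, ← mul_sum, ← mul_sum, e1, e2]
        simp)
    have h2 : ∀ b ∈ B, b ≠ β → u b = 0 := by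
      intro b hbB hne
      have h3 := h1 b (mem_erase.2 ⟨hne, hbB⟩)
      have h4 : (b : ZMod p) - β ≠ 0 := by
        intro h
        have h5 := (ZMod.natCast_eq_natCast_iff' b β p).1 (sub_eq_zero.1 h)
        have := hb b hbB
        have := hb β hβ
        rw [Nat.mod_eq_of_lt (by omega), Nat.mod_eq_of_lt (by omega)] at h5
        exact hne h5
      simpa [hjb b hbB, h4] using h3
    have h3 := heq (a + R) (by omega) (by omega)
    rw [sum_eq_single_of_mem β hβ (fun b hbB hne => by rw [h2 b hbB hne, mul_zero])] at h3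
    have hβ' := hb β hβ
    refine (mul_eq_zero.1 h3).resolve_left ?_
    intro h
    rw [ZMod.natCast_eq_zero_iff] at h
    have := hp.out.coprime_choose_of_lt (b := j - β - 1) (a := β - (a + R)) (by omega) (by omega)
    exact hp.out.one_lt.ne' (this.eq_one_of_dvd h)

section key

variable {F : Type*} [CommRing F] {γ : ℕ → ℕ → F} {a l M : ℕ}

theorem exists_diag
    (hR : ∀ x y, a ≤ x → a ≤ y → x + y + 1 + l < M → γ x y = γ (x + 1) y + γ x (y + 1))
    (h0 : ∀ x, a ≤ x → x + x + l < M → γ x x = 0)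
    (hA : ∀ x y, a ≤ x → a ≤ y → x + y + l < M → γ y x = - γ x y)
    {x y : ℕ} (hx : a ≤ x) (hy : a ≤ y) (hM : x + y + l < M) (hne : γ x y ≠ 0) :
    ∃ b, a ≤ b ∧ 2 * b + 1 ≤ x + y ∧ γ b (b + 1) ≠ 0 := by
  wlog hxy : x ≤ y generalizing x y
  · have := this hy hx (by omega) (by rw [hA x y hx hy hM]; exact neg_ne_zero.2 hne) (by omega)
    rwa [add_comm y x] at this
  obtain ⟨d, rfl⟩ := Nat.exists_eq_add_of_le hxy
  rw [closed_formula hR h0 d x hx hM] at hne
  obtain ⟨i, hi, hne⟩ := exists_ne_zero_of_sum_ne_zero hne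
  have hi' := mem_range.1 hi
  refine ⟨x + i, by omega, ?_, right_ne_zero_of_mul hne⟩
  by_contra hcon
  apply hne
  rw [Nat.choose_eq_zero_of_lt (by omega)]
  simp

end key

theorem key_lemma {p : ℕ} [hp : Fact p.Prime] {γ : ℕ → ℕ → ZMod p} {a l M : ℕ}
    (hR : ∀ x y, a ≤ x → a ≤ y → x + y + 1 + l < M → γ x y = γ (x + 1) y + γ x (y + 1))
    (h0 : ∀ x, a ≤ x → x + x + l < M → γ x x = 0)
    (hA : ∀ x y, a ≤ x → a ≤ y → x + y + l < M → γ y x = - γ x y)
    (hJ : ∀ x y z, a ≤ x → a ≤ y → a ≤ z → x + y + z + 2 * l < M →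
      γ x y * γ (x + y + l) z + γ y z * γ (y + z + l) x + γ z x * γ (z + x + l) y = 0)
    (ha : 1 ≤ a) (hMp : M ≤ p) {s : ℕ} {T : Finset ℕ} (hT : T.card ≤ s)
    (hTm : ∀ b, a ≤ b → 2 * b + 1 + l < M → γ b (b + 1) ≠ 0 → b ∈ T ∧ a + s ≤ b)
    {x y : ℕ} (hx : a ≤ x) (hy : a ≤ y) (hM : x + y + l < M) (hne : γ x y ≠ 0) :
    ∃ b, a ≤ b ∧ 2 * b + 1 + l < M ∧ γ b (b + 1) ≠ 0 ∧ M ≤ a + s + (2 * b + 1 + l) + l := by
  classical
  have hex : ∃ b, a ≤ b ∧ 2 * b + 1 + l < M ∧ γ b (b + 1) ≠ 0 := by
    obtain ⟨b, h1, h2, h3⟩ := exists_diag hR h0 hA hx hy hM hne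
    exact ⟨b, h1, by omega, h3⟩
  obtain ⟨hb1, hb2, hb3⟩ := Nat.find_spec hex
  set b0 := Nat.find hex with hb0
  refine ⟨b0, hb1, hb2, hb3, ?_⟩
  by_contra hcon
  have hb4 := (hTm b0 hb1 hb2 hb3).2
  have hvan : ∀ x y, a ≤ x → a ≤ y → x + y ≤ 2 * b0 → γ x y = 0 := by
    intro x y hx hy hxy
    by_contra hne
    obtain ⟨b, h1, h2, h3⟩ := exists_diag hR h0 hA hx hy (by omega) hne
    exact Nat.find_min hex (show b < b0 by omega) ⟨h1, by omega, h3⟩
  set j := 2 * b0 + 1 + l with hj
  have hz : ∀ x, a ≤ x → x < a + s → γ x j = 0 := by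
    intro x hx hx'
    have h1 := hJ b0 (b0 + 1) x hb1 (by omega) hx (by omega)
    rw [hvan (b0 + 1) x (by omega) hx (by omega), hvan x b0 hx hb1 (by omega)] at h1
    have e : b0 + (b0 + 1) + l = j := by omega
    rw [e] at h1
    have h2 : γ j x = 0 := by
      simpa [hb3] using h1
    rw [hA j x (by omega) hx (by omega), h2, neg_zero]
  set B := T.filter (fun b => a ≤ b ∧ 2 * b + 2 ≤ a + s + j ∧ γ b (b + 1) ≠ 0) with hB
  have hsp := sparse (p := p) a s j B (fun b => (-1) ^ b * γ b (b + 1))
    ((card_filter_le _ _).trans hT) (by omega)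
    (by
      intro b hb
      obtain ⟨-, h1, h2, h3⟩ := mem_filter.1 hb
      exact ⟨(hTm b h1 (by omega) h3).2, h2⟩)
    (by
      intro x hx hx'
      have h1 := closed_formula hR h0 (j - x) x hx (by omega)
      have e : x + (j - x) = j := by omega
      rw [e, hz x hx hx'] at h1
      have h2 : ∑ b ∈ Ico x j, ((j - b - 1).choose (b - x) : ZMod p) * ((-1) ^ b * γ b (b + 1)) =
          0 := by
        rw [sum_Ico_eq_sum_range]
        have : ∀ i ∈ range (j - x), ((j - (x + i) - 1).choose (x + i - x) : ZMod p) *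
            ((-1) ^ (x + i) * γ (x + i) (x + i + 1)) =
            (-1) ^ x * ((-1) ^ i * ((j - x - i - 1).choose i : ZMod p) * γ (x + i) (x + i + 1)) := by
          intro i _
          have f1 : j - (x + i) - 1 = j - x - i - 1 := by omega
          have f2 : x + i - x = i := by omega
          rw [f1, f2]
          ring
        rw [sum_congr rfl this, ← mul_sum, ← h1, mul_zero]
      rw [← h2]
      apply sum_subset
      · intro b hb
        obtain ⟨-, h1, h2, h3⟩ := mem_filter.1 hb
        have := (hTm b h1 (by omega) h3).2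
        rw [mem_Ico]
        omega
      · intro b hb hb'
        rw [mem_Ico] at hb
        by_cases h3 : γ b (b + 1) = 0
        · simp [h3]
        by_cases h4 : 2 * b + 2 ≤ a + s + j
        · exact absurd (mem_filter.2 ⟨(hTm b (by omega) (by omega) h3).1, by omega, h4, h3⟩) hb'
        · rw [Nat.choose_eq_zero_of_lt (by omega)]
          simp)
  have h5 := hsp b0 (mem_filter.2 ⟨(hTm b0 hb1 hb2 hb3).1, hb1, by omega, hb3⟩)
  simp [hb3] at h5

end Pool.Agent.MP_565547_al.H26
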