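import Mathlib
import Pool.Agent.MP_565547_al.H26.Sparse
import Pool.Agent.MP_565547_al.H26.Build

/-!
The logarithmic bound for the derived length.
-/

namespace Pool.Agent.MP_565547_al.H26

open scoped commutatorElement
open Finset

variable {p : ℕ} {G : Type} [Group G]

theorem exists_gap (J : Finset ℕ) {s : ℕ} (hJ : J.card ≤ s) :
    ∃ a, 2 ≤ a ∧ s ≤ a ∧ a ≤ 2 * (s + 1) ^ 2 ∧ ∀ b, b ∈ J → a ≤ b → a + s ≤ b := by
  by_contra hcon
  push Not at hcon
  have h : ∀ k, ∃ b, k < s + 1 → b ∈ J ∧ 2 + (k + 1) * s ≤ b ∧ b < 2 + (k + 1) * s + s := by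
    intro k
    by_cases hk : k < s + 1
    · obtain ⟨b, hb⟩ := hcon (2 + (k + 1) * s) (by omega) (by nlinarith) (by nlinarith)
      exact ⟨b, fun _ => hb⟩
    · exact ⟨0, fun h => absurd h hk⟩
  choose b hb using h
  have := card_le_card_of_injOn (s := range (s + 1)) (t := J) b
    (fun k hk => (hb k (mem_range.1 hk)).1) (by
      intro k hk k' hk' e
      obtain ⟨-, h1, h2⟩ := hb k (mem_range.1 hk)
      obtain ⟨-, h3, h4⟩ := hb k' (mem_range.1 hk')
      rcases lt_trichotomy k k' with h | h | h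
      · nlinarith [Nat.mul_le_mul_right s h]
      · exact h
      · nlinarith [Nat.mul_le_mul_right s h])
  rw [card_range] at this
  omega

namespace Fil

variable (F : Fil p G)

/-- The derived subgroups of the terms. -/
abbrev D (b : ℕ) : Subgroup G := ⁅F.P b, F.P b⁆

theorem level_unique {K : Subgroup G} {i j : ℕ} (h1 : K ≤ F.P i) (h2 : ¬ K ≤ F.P (i + 1))
    (h3 : K ≤ F.P j) (h4 : ¬ K ≤ F.P (j + 1)) : i = j := by
  rcases lt_trichotomy i j with h | h | h
  · exact absurd (h3.trans (F.anti _ _ h)) h2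
  · exact h
  · exact absurd (h1.trans (F.anti _ _ h)) h4

theorem D_le {a l M x w : ℕ} (H : F.Sh a l M) (hx : a ≤ x) (hw : w ≤ x + x + l) (hM : w ≤ M) :
    F.D x ≤ F.P w :=
  Subgroup.commutator_le.2 fun g hg h hh => H x x w g h hx hx hw hM hg hh

theorem derived_one {k i : ℕ} (h : derivedSeries G k ≤ F.P i) : derivedSeries G (k + 1) ≤ F.D i :=
  Subgroup.commutator_mono h h

theorem derived_step {k i : ℕ} (h : derivedSeries G k ≤ F.P i) (j : ℕ) :
    derivedSeries G (k + j) ≤ F.P (2 ^ j * i) := by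
  induction j with
  | zero => simpa using h
  | succ j ih =>
    exact (F.derived_one ih).trans (F.D_le (F.sh_zero 0 _) (Nat.zero_le _)
      (by rw [pow_succ]; nlinarith) le_rfl)

end Fil

namespace Ctx

variable [hp : Fact p.Prime] {M : ℕ} (c : Ctx p G M)

theorem sh_max {a f : ℕ} (ha : 1 ≤ a) (hf : f < M) (hD : ¬ c.D a ≤ c.P (f + 1)) :
    ∃ l, c.Sh a l M ∧ a + a + l ≤ f ∧
      ∃ x y, a ≤ x ∧ a ≤ y ∧ x + y + l < M ∧ c.γ l x y ≠ 0 := by
  classical
  have hex : ∃ l, ¬ c.Sh a (l + 1) M := ⟨f, fun H => hD (c.D_le H le_rfl (by omega) hf)⟩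
  have h1 := Nat.find_spec hex
  have h2 : c.Sh a (Nat.find hex) M := by
    rcases Nat.eq_zero_or_pos (Nat.find hex) with h | h
    · rw [h]
      exact c.sh_zero a M
    · have := Nat.find_min hex (show Nat.find hex - 1 < Nat.find hex by omega)
      rwa [not_not, Nat.sub_add_cancel h] at this
  generalize Nat.find hex = l at h1 h2
  refine ⟨l, h2, ?_, ?_⟩
  · by_contra h
    exact hD (c.D_le h2 le_rfl (by omega) hf)
  · by_contra hcon
    push Not at hcon
    apply h1
    intro x y w g h hx hy hw hM hg hh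
    rcases le_or_gt w (x + y + l) with h3 | h3
    · exact h2 x y w g h hx hy h3 hM hg hh
    have e := c.bilin h2 ha hx hy (by omega) hg hh
    rw [hcon x y hx hy (by omega), mul_zero,
      c.κ_zero _ _ (h2 x y _ g h hx hy le_rfl (by omega) hg hh)] at e
    exact c.down e (by omega)

theorem diag_level {a l b : ℕ} (H : c.Sh a l M) (ha : 1 ≤ a) (hb : a ≤ b) (hM : 2 * b + 1 + l < M)
    (hne : c.γ l b (b + 1) ≠ 0) :
    c.D b ≤ c.P (2 * b + 1 + l) ∧ ¬ c.D b ≤ c.P (2 * b + 1 + l + 1) ∧ ¬ c.D b ≤ c.D (b + 1) := by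
  have h2 : ¬ c.D b ≤ c.P (2 * b + 1 + l + 1) := by
    intro h
    apply hne
    apply c.κ_hi
    rw [show b + (b + 1) + l + 1 = 2 * b + 1 + l + 1 by omega]
    exact h (Subgroup.commutator_mem_commutator (c.t_mem b (by omega))
      (c.down (c.t_mem (b + 1) (by omega)) (by omega)))
  refine ⟨?_, h2, fun h => h2 (h.trans (c.D_le H (by omega) (by omega) hM))⟩
  refine Subgroup.commutator_le.2 fun g hg h hh => ?_
  have e := c.bilin H ha hb hb (by omega) hg hh
  rw [c.γ_self, mul_zero, c.κ_zero _ _ (H b b _ g h hb hb le_rfl (by omega) hg hh)] at e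
  exact c.down e (by omega)

theorem small {J : Finset ℕ} {s : ℕ} (hJ : J.card ≤ s)
    (hJm : ∀ b, 2 ≤ b → b < M → ¬ c.D b ≤ c.D (b + 1) → b ∈ J) {a f : ℕ} (ha : 2 ≤ a)
    (hgap : ∀ b, b ∈ J → a ≤ b → a + s ≤ b) (hD : ¬ c.D a ≤ c.P (f + 1)) :
    min M p ≤ (s + 1) * (f + s) := by
  by_contra hcon
  have h : ∀ k, ∃ b j, k < s + 1 → b ∈ J ∧ c.D b ≤ c.P j ∧ ¬ c.D b ≤ c.P (j + 1) ∧
      j ≤ (k + 1) * (f + s) ∧ k * (f + s) < j := by
    intro k
    by_cases hk : k < s + 1
    swap
    · exact ⟨0, 0, fun h => absurd h hk⟩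
    have h1 : (k + 1) * (f + s) ≤ (s + 1) * (f + s) := Nat.mul_le_mul_right _ hk
    have h2 : (k + 1) * (f + s) = k * (f + s) + (f + s) := by ring
    have hN : (k + 1) * (f + s) + 1 ≤ M := by omega
    obtain ⟨l, H, hl, x, y, hx, hy, hM, hne⟩ := (c.mono hN).sh_max (a := a) (f := f) (by omega)
      (by omega) hD
    obtain ⟨b, h3, h4, h5, h6⟩ := key_lemma ((c.mono hN).γ_rec H (by omega))
      (fun x _ _ => (c.mono hN).γ_self x) ((c.mono hN).γ_anti H (by omega))
      ((c.mono hN).γ_jac H (by omega)) (by omega) (by omega) hJ (fun b h3 h4 h5 => by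
        have := hJm b (by omega) (by omega) ((c.mono hN).diag_level H (by omega) h3 h4 h5).2.2
        exact ⟨this, hgap b this h3⟩) hx hy hM hne
    obtain ⟨h7, h8, h9⟩ := (c.mono hN).diag_level H (by omega) h3 h4 h5
    exact ⟨b, 2 * b + 1 + l, fun _ => ⟨hJm b (by omega) (by omega) h9, h7, h8, by omega, by omega⟩⟩
  choose b j hb using h
  have := card_le_card_of_injOn (s := range (s + 1)) (t := J) b
    (fun k hk => (hb k (mem_range.1 hk)).1) (by
      intro k hk k' hk' e
      obtain ⟨-, h1, h2, h3, h4⟩ := hb k (mem_range.1 hk)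
      obtain ⟨-, h5, h6, h7, h8⟩ := hb k' (mem_range.1 hk')
      rw [← e] at h5 h6
      have h9 := c.level_unique h1 h2 h5 h6
      rcases lt_trichotomy k k' with h | h | h
      · have := Nat.mul_le_mul_right (f + s) (show k + 1 ≤ k' from h)
        omega
      · exact h
      · have := Nat.mul_le_mul_right (f + s) (show k' + 1 ≤ k from h)
        omega)
  rw [card_range] at this
  omega

theorem diag_per {l q b : ℕ} (H : c.Sh p l M) (hq : p = q + 1) (hb : p ≤ b)
    (hM : 2 * (b + q) + 1 + l < M) : c.γ l (b + q) (b + q + 1) = c.γ l b (b + 1) := by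
  have hp1 := hp.out.one_le
  rw [c.γ_per H hp1 hq hb hb (by omega) (by omega), c.γ_anti H hp1 (b + q + 1) b (by omega) hb
    (by omega), show b + q + 1 = b + 1 + q by omega,
    c.γ_per H hp1 hq (by omega) (by omega) hb (by omega),
    c.γ_anti H hp1 (b + 1) b (by omega) hb (by omega)]

theorem large (hbot : c.P M = ⊥) (hM : 1 ≤ M) {J : Finset ℕ} {s : ℕ} (hJ : J.card ≤ s)
    (hJm : ∀ b, 2 ≤ b → b < M → ¬ c.D b ≤ c.D (b + 1) → b ∈ J) :
    ∃ l, c.Sh p l M ∧ M ≤ (s + 2) * p + (s + 2) * p + l := by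
  classical
  have hp2 := hp.out.two_le
  by_cases hD : c.D p ≤ c.P (M - 1 + 1)
  · refine ⟨M, fun x y w g h hx hy _ hw hg hh => ?_, by omega⟩
    rw [Nat.sub_add_cancel hM] at hD
    exact c.down (hD (Subgroup.commutator_mem_commutator (c.down hg hx) (c.down hh hy))) hw
  obtain ⟨l, H, -, x, y, hx, hy, hxy, hne⟩ := c.sh_max (by omega) (by omega) hD
  refine ⟨l, H, ?_⟩
  have hex : ∃ b, p ≤ b ∧ 2 * b + 1 + l < M ∧ c.γ l b (b + 1) ≠ 0 := by
    obtain ⟨b, h1, h2, h3⟩ := exists_diag (c.γ_rec H (by omega)) (fun x _ _ => c.γ_self x)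
      (c.γ_anti H (by omega)) hx hy hxy hne
    exact ⟨b, h1, by omega, h3⟩
  obtain ⟨q, hq⟩ : ∃ q, p = q + 1 := ⟨p - 1, by omega⟩
  obtain ⟨h1, h2, h3⟩ := Nat.find_spec hex
  have h4 : Nat.find hex < p + q := by
    by_contra h
    refine Nat.find_min hex (show Nat.find hex - q < Nat.find hex by omega) ⟨by omega, by omega, ?_⟩
    rw [← c.diag_per H hq (by omega) (by omega), Nat.sub_add_cancel (by omega)]
    exact h3
  generalize Nat.find hex = b at h1 h2 h3 h4
  have h5 : ∀ k, 2 * (b + k * q) + 1 + l < M → c.γ l (b + k * q) (b + k * q + 1) ≠ 0 := by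
    intro k
    induction k with
    | zero => simpa using fun _ => h3
    | succ k ih =>
      intro h
      have e : b + (k + 1) * q = b + k * q + q := by ring
      rw [e] at h ⊢
      rw [c.diag_per H hq (by omega) h]
      exact ih (by omega)
  by_contra hcon
  have h6 : (s + 2) * p = s * q + s + 2 * p := by rw [hq]; ring
  have := card_le_card_of_injOn (s := range (s + 1)) (t := J) (fun k => b + k * q)
    (fun k hk => by
      have h7 : k * q ≤ s * q := Nat.mul_le_mul_right q (by have := mem_range.1 hk; omega)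
      exact hJm (b + k * q) (by omega) (by omega)
        (c.diag_level H (by omega) (by omega) (by omega) (h5 k (by omega))).2.2) (by
      intro k _ k' _ e
      exact Nat.eq_of_mul_eq_mul_right (show 0 < q by omega) (by simpa using e))
  rw [card_range] at this
  omega

theorem derived_bot (hbot : c.P M = ⊥) (hM : 1 ≤ M) (h2 : derivedSeries G 1 ≤ c.P 2)
    {J : Finset ℕ} {s : ℕ} (hJ : J.card ≤ s)
    (hJm : ∀ b, 2 ≤ b → b < M → ¬ c.D b ≤ c.D (b + 1) → b ∈ J) :
    derivedSeries G (4 * Nat.log 2 s + 9) = ⊥ := by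
  classical
  have hK : s + 1 ≤ 2 ^ (Nat.log 2 s + 1) := Nat.lt_pow_succ_log_self (by norm_num) s
  rw [show 4 * Nat.log 2 s + 9 = 4 * (Nat.log 2 s + 1) + 5 by ring]
  generalize Nat.log 2 s + 1 = K at hK
  obtain ⟨a, ha, has, ha', hgap⟩ := exists_gap J hJ
  have d1 : derivedSeries G (1 + 2 * K + 1) ≤ c.D a := by
    refine c.derived_one ((c.derived_step h2 (2 * K)).trans (c.anti _ _ ?_))
    rw [pow_mul']
    nlinarith [Nat.pow_le_pow_left hK 2]
  have d2 : derivedSeries G (1 + 2 * K + 1 + (K + 1)) ≤ c.P (min M p) := by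
    by_cases hD : c.D a ≤ c.P M
    · exact (derivedSeries_antitone G (by omega)).trans
        (d1.trans (hD.trans (c.anti _ _ (min_le_left _ _))))
    have hex : ∃ f, ¬ c.D a ≤ c.P (f + 1) := ⟨M - 1, by rwa [Nat.sub_add_cancel hM]⟩
    have h3 := Nat.find_spec hex
    have h4 : a + a ≤ Nat.find hex := by
      by_contra h
      exact h3 (c.D_le (c.sh_zero a _) le_rfl (by omega) le_rfl)
    have h5 := Nat.find_min hex (show Nat.find hex - 1 < Nat.find hex by omega)
    rw [not_not, Nat.sub_add_cancel (by omega)] at h5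
    generalize Nat.find hex = f at h3 h4 h5
    refine (c.derived_step (d1.trans h5) (K + 1)).trans (c.anti _ _ ?_)
    refine (c.small hJ hJm ha hgap h3).trans ?_
    rw [pow_succ]
    nlinarith [Nat.mul_le_mul hK (show f + s ≤ 2 * f by omega)]
  rw [eq_bot_iff, ← hbot]
  rcases le_total M p with h | h
  · rw [min_eq_left h] at d2
    exact (derivedSeries_antitone G (by omega)).trans d2
  rw [min_eq_right h] at d2
  obtain ⟨l, H, hl⟩ := c.large hbot hM hJ hJm
  have d3 : derivedSeries G (1 + 2 * K + 1 + (K + 1) + (K + 1)) ≤ c.P ((s + 2) * p) := by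
    refine (c.derived_step d2 (K + 1)).trans (c.anti _ _ (Nat.mul_le_mul_right p ?_))
    rw [pow_succ]
    omega
  rw [show 4 * K + 5 = 1 + 2 * K + 1 + (K + 1) + (K + 1) + 1 by ring]
  exact (c.derived_one d3).trans (c.D_le H (by nlinarith) hl le_rfl)

end Ctx

theorem main [hp : Fact p.Prime] [Finite G] {n : ℕ} (hG : Nat.card G = p ^ n)
    (hc : Group.nilpotencyClass G = n - 1) :
    derivedSeries G (4 * Nat.log 2 ((fun i => ⁅L G i, L G i⁆) '' {i | i < n}).ncard + 9) = ⊥ := by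
  classical
  rcases lt_or_ge n 4 with hn | hn
  · rw [eq_bot_iff, ← (L_bot_iff hG hc 2).2 (by omega)]
    exact (derivedSeries_antitone G (by omega)).trans (Subgroup.derived_le_lower_central 2)
  obtain ⟨c, hP⟩ := exists_ctx hG hc hn
  have hP' : ∀ b, 2 ≤ b → c.P b = L G (b - 1) := by
    intro b hb
    obtain ⟨i, rfl⟩ : ∃ i, b = i + 2 := ⟨b - 2, by omega⟩
    exact hP i
  refine c.derived_bot (by rw [hP' n (by omega), L_bot_iff hG hc]) (by omega)
    (by rw [hP 0]; exact le_rfl)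
    (J := (range n).filter fun b => 2 ≤ b ∧ ¬ c.D b ≤ c.D (b + 1)) ?_
    (fun b h1 h2 h3 => mem_filter.2 ⟨mem_range.2 h2, h1, h3⟩)
  rw [← Set.ncard_coe_finset]
  refine Set.ncard_le_ncard_of_injOn c.D ?_ ?_ ((Set.finite_lt_nat n).image _)
  · intro b hb
    obtain ⟨h1, h2, -⟩ := mem_filter.1 hb
    refine ⟨b - 1, ?_, ?_⟩
    · have := mem_range.1 h1
      change b - 1 < n
      omega
    · simp only [Fil.D, hP' b h2]
  · have key : ∀ b b', b < b' → ¬ c.D b ≤ c.D (b + 1) → c.D b ≠ c.D b' := fun b b' h h1 e =>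
      h1 (e.le.trans (Subgroup.commutator_mono (c.anti _ _ h) (c.anti _ _ h)))
    intro b hb b' hb' e
    rcases lt_trichotomy b b' with h | h | h
    · exact absurd e (key b b' h (mem_filter.1 hb).2.2)
    · exact h
    · exact absurd e.symm (key b' b h (mem_filter.1 hb').2.2)

end Pool.Agent.MP_565547_al.H26
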